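import Pool.Agent.Helper31.Ewald.Short

/-!
A symmetric convex body of lattice width at least two contains, after dilation by a constant
depending only on the dimension, a basis of the lattice.
-/

namespace Helper31.Ewald

open Matrix Set MeasureTheory
open scoped ENNReal Nat

/-- every nonzero lattice vector is a multiple of the first vector of some basis -/
theorem exists_completion {n : ℕ} (z : Fin (n + 1) → ℤ) (hz : z ≠ 0) :
    ∃ (U : Matrix (Fin (n + 1)) (Fin (n + 1)) ℤ) (m : ℤ), IsUnit U.det ∧ m ≠ 0 ∧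
      z = m • U 0 := by
  classical
  set N : Submodule ℤ (Fin (n + 1) → ℤ) := Submodule.span ℤ {z} with hN
  obtain ⟨r, snf⟩ := Submodule.smithNormalForm (Pi.basisFun ℤ (Fin (n + 1))) N
  have hzN : z ∈ N := Submodule.mem_span_singleton_self z
  have hr : Nonempty (Fin r) := by
    by_contra hcon
    rw [not_nonempty_iff] at hcon
    apply hz
    have h1 := snf.bN.sum_repr ⟨z, hzN⟩
    rw [Finset.univ_eq_empty, Finset.sum_empty] at h1
    exact congrArg Subtype.val h1.symm
  obtain ⟨i0⟩ := hr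
  set j0 := snf.f i0 with hj0
  -- `q z = a v`
  obtain ⟨q, hq⟩ := Submodule.mem_span_singleton.1 (snf.bN i0).2
  have hq0 : q ≠ 0 := by
    rintro rfl
    rw [zero_smul] at hq
    exact snf.bN.ne_zero i0 (Subtype.ext hq.symm)
  have hqa : q • z = snf.a i0 • snf.bM j0 := by rw [hq, snf.snf i0]
  have hrepr : ∀ j, j ≠ j0 → snf.bM.repr z j = 0 := by
    intro j hj
    have h1 := congrArg (fun v => snf.bM.repr v j) hqa
    simp only [map_smul, Finsupp.smul_apply, smul_eq_mul, Module.Basis.repr_self] at h1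
    rw [Finsupp.single_apply, if_neg (Ne.symm hj), mul_zero] at h1
    exact (mul_eq_zero.1 h1).resolve_left hq0
  have hzv : z = snf.bM.repr z j0 • snf.bM j0 := by
    conv_lhs => rw [← snf.bM.sum_repr z]
    exact Finset.sum_eq_single j0 (fun j _ hj => by rw [hrepr j hj, zero_smul])
      (fun h => absurd (Finset.mem_univ _) h)
  let σ : Equiv.Perm (Fin (n + 1)) := Equiv.swap 0 j0
  let b' := snf.bM.reindex σ
  refine ⟨Matrix.of b', snf.bM.repr z j0, ?_, ?_, ?_⟩
  · rw [← Pi.basisFun_det_apply]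
    exact (Pi.basisFun ℤ (Fin (n + 1))).isUnit_det b'
  · intro h0
    rw [h0, zero_smul] at hzv
    exact hz hzv
  · have : (Matrix.of b') 0 = snf.bM j0 := by
      change b' 0 = snf.bM j0
      simp only [b', Module.Basis.reindex_apply, σ, Equiv.symm_swap, Equiv.swap_apply_left]
    rw [this]
    exact hzv

/-- the constant -/
noncomputable def cc (n : ℕ) : ℝ := (((n : ℝ) + 1) * ((n : ℝ) + 2) * (2 * (n : ℝ) + 3) + 24) / 48

theorem cc_pos (n : ℕ) : 0 < cc n := by
  unfold cc
  positivity

theorem cc_succ (n : ℕ) : cc n + ((n : ℝ) + 2) ^ 2 / 4 / 2 = cc (n + 1) := by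
  unfold cc
  push_cast
  ring

theorem sq_le_cc (n : ℕ) : ((n : ℝ) + 2) ^ 2 / 4 ≤ cc (n + 1) := by
  have key : 0 ≤ 2 * (n : ℝ) ^ 3 + 3 * (n : ℝ) ^ 2 - 11 * n + 6 := by
    rcases Nat.eq_zero_or_pos n with h | h
    · subst h; norm_num
    · have h1 : (1 : ℝ) ≤ n := by exact_mod_cast h
      have h2 : 0 ≤ ((n : ℝ) - 1) * (2 * (n : ℝ) ^ 2 + 5 * n - 6) :=
        mul_nonneg (by linarith) (by nlinarith)
      linarith [h2, (by ring : ((n : ℝ) - 1) * (2 * (n : ℝ) ^ 2 + 5 * n - 6) =
        2 * (n : ℝ) ^ 3 + 3 * (n : ℝ) ^ 2 - 11 * n + 6)]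
  unfold cc
  push_cast
  nlinarith

theorem toR_vecMul {n m : ℕ} (a : Fin n → ℤ) (U : Matrix (Fin n) (Fin m) ℤ) :
    toR (a ᵥ* U) = toR a ᵥ* U.map (fun x : ℤ => (x : ℝ)) := by
  funext j
  simp [toR, Matrix.vecMul, dotProduct, Matrix.map_apply]

theorem toR_mulVec {n m : ℕ} (a : Fin m → ℤ) (U : Matrix (Fin n) (Fin m) ℤ) :
    toR (U *ᵥ a) = U.map (fun x : ℤ => (x : ℝ)) *ᵥ toR a := by
  funext j
  simp [toR, Matrix.mulVec, dotProduct, Matrix.map_apply]

/-- The projection of the body to the last coordinates (in the coordinates of a basis). -/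
theorem Body.proj {n : ℕ} {C : Set (Fin (n + 1) → ℝ)} (hC : Body C)
    {V U : Matrix (Fin (n + 1)) (Fin (n + 1)) ℤ} (hVU : U * V = 1) (hVU' : V * U = 1) :
    Body ((fun x : Fin (n + 1) → ℝ => Fin.tail (x ᵥ* V.map (fun x : ℤ => (x : ℝ)))) '' C) := by
  set Vr := V.map (fun x : ℤ => (x : ℝ)) with hVr
  set Ur := U.map (fun x : ℤ => (x : ℝ)) with hUr
  have hr : Ur * Vr = 1 := by
    have h1 := congrArg (fun M : Matrix (Fin (n + 1)) (Fin (n + 1)) ℤ =>
      M.map (fun x : ℤ => (x : ℝ))) hVU
    have h2 : (U * V).map (fun x : ℤ => (x : ℝ)) = Ur * Vr :=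
      Matrix.map_mul (f := Int.castRingHom ℝ)
    rw [h2] at h1
    rw [h1]
    exact Matrix.map_one _ Int.cast_zero Int.cast_one
  let g : (Fin (n + 1) → ℝ) →ₗ[ℝ] (Fin n → ℝ) :=
    { toFun := fun x => Fin.tail (x ᵥ* Vr)
      map_add' := by
        intro x y
        rw [Matrix.add_vecMul]
        rfl
      map_smul' := by
        intro c x
        rw [Matrix.smul_vecMul]
        rfl }
  have hg : ∀ x, g x = Fin.tail (x ᵥ* Vr) := fun x => rfl
  have hsurj : Function.Surjective g := by
    intro w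
    refine ⟨(Fin.cons 0 w : Fin (n + 1) → ℝ) ᵥ* Ur, ?_⟩
    rw [hg, Matrix.vecMul_vecMul, hr, Matrix.vecMul_one, Fin.tail_cons]
  have hopen := g.isOpenMap_of_finiteDimensional hsurj
  have himg : ((fun x : Fin (n + 1) → ℝ => Fin.tail (x ᵥ* Vr)) '' C) = g '' C := rfl
  rw [himg]
  refine ⟨?_, ?_, ?_, ?_, ?_⟩
  · exact hC.compact.image (LinearMap.continuous_of_finiteDimensional g)
  · have := hopen.image_mem_nhds hC.nhds0
    rwa [map_zero] at this
  · exact hC.convex.linear_image g
  · rintro _ ⟨x, hx, rfl⟩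
    exact ⟨-x, hC.symm x hx, map_neg g x⟩
  · intro w hw
    have hu : V *ᵥ (Fin.cons 0 w : Fin (n + 1) → ℤ) ≠ 0 := by
      intro h0
      apply hw
      have h1 : U *ᵥ (V *ᵥ (Fin.cons 0 w : Fin (n + 1) → ℤ)) = Fin.cons 0 w := by
        rw [Matrix.mulVec_mulVec, hVU, Matrix.one_mulVec]
      rw [h0, Matrix.mulVec_zero] at h1
      funext i
      have h2 := congrFun h1 i.succ
      rw [Fin.cons_succ] at h2
      exact h2.symm
    obtain ⟨x, hx, hux⟩ := hC.width _ hu
    refine ⟨g x, ⟨x, hx, rfl⟩, ?_⟩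
    rw [toR_mulVec, ← hVr] at hux
    rw [← hux, hg]
    have h3 : toR (Fin.cons 0 w : Fin (n + 1) → ℤ) = (Fin.cons 0 (toR w) : Fin (n + 1) → ℝ) := by
      funext i
      refine Fin.cases ?_ (fun j => ?_) i
      · simp [toR]
      · simp [toR]
    rw [h3, dotProduct_comm (Vr *ᵥ _) x, Matrix.dotProduct_mulVec,
      dotProduct_comm (x ᵥ* Vr)]
    simp [dotProduct, Fin.sum_univ_succ, Fin.tail]

/-- The main statement on bodies. -/
theorem Body.exists_basis (n : ℕ) : ∀ C : Set (Fin n → ℝ), Body C →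
    ∃ b : Matrix (Fin n) (Fin n) ℤ, IsUnit b.det ∧ ∀ i, ∃ x ∈ C, toR (b i) = cc n • x := by
  induction n with
  | zero =>
    intro C _
    exact ⟨1, by simp, fun i => i.elim0⟩
  | succ n ih =>
    intro C hC
    obtain ⟨z, hz0, x₀, hx₀, hzx⟩ := hC.short_vector
    obtain ⟨U, m, hU, hm, hzm⟩ := exists_completion z hz0
    set s : ℝ := ((n : ℝ) + 2) ^ 2 / 4 with hs
    have hs' : (((n + 1 : ℕ) : ℝ) + 1) ^ 2 / 4 = s := by rw [hs]; push_cast; ring
    rw [hs'] at hzx
    have hs0 : 0 < s := by positivity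
    set V := U⁻¹ with hV
    have hUV : U * V = 1 := Matrix.mul_nonsing_inv U hU
    have hVU : V * U = 1 := Matrix.nonsing_inv_mul U hU
    set Vr := V.map (fun x : ℤ => (x : ℝ)) with hVr
    set Ur := U.map (fun x : ℤ => (x : ℝ)) with hUr
    have hr : Vr * Ur = 1 := by
      have h1 := congrArg (fun M : Matrix (Fin (n + 1)) (Fin (n + 1)) ℤ =>
        M.map (fun x : ℤ => (x : ℝ))) hVU
      have h2 : (V * U).map (fun x : ℤ => (x : ℝ)) = Vr * Ur :=
        Matrix.map_mul (f := Int.castRingHom ℝ)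
      rw [h2] at h1
      rw [h1]
      exact Matrix.map_one _ Int.cast_zero Int.cast_one
    obtain ⟨b', hb', hb'x⟩ := ih _ (hC.proj hUV hVU)
    -- the points
    have hpt : ∀ i, ∃ x ∈ C, toR (b' i) = cc n • Fin.tail (x ᵥ* Vr) := by
      intro i
      obtain ⟨_, ⟨x, hx, rfl⟩, h⟩ := hb'x i
      exact ⟨x, hx, h⟩
    choose y hyC hy using hpt
    -- the first vector
    have hm1 : (1 : ℝ) ≤ |(m : ℝ)| := by
      have : (1 : ℤ) ≤ |m| := Int.one_le_abs hm
      exact_mod_cast this
    have hm0 : (m : ℝ) ≠ 0 := by exact_mod_cast hm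
    have hU0 : toR (U 0) = (s / m) • x₀ := by
      have h1 : toR z = (m : ℝ) • toR (U 0) := by rw [hzm, toR_smul]
      rw [h1] at hzx
      have h2 : toR (U 0) = (m : ℝ)⁻¹ • ((m : ℝ) • toR (U 0)) := by
        rw [smul_smul, inv_mul_cancel₀ hm0, one_smul]
      rw [h2, hzx, smul_smul]
      congr 1
      field_simp
    have hcc := cc_pos n
    have hcc' := cc_pos (n + 1)
    have hsm : |s / m| ≤ s := by
      rw [abs_div, abs_of_pos hs0]
      exact div_le_self hs0.le hm1
    -- the other rows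
    let B : Fin n → Fin (n + 1) → ℤ := fun i =>
      Fin.cons (round ((cc n • (y i ᵥ* Vr)) 0)) (b' i)
    let M : Matrix (Fin (n + 1)) (Fin (n + 1)) ℤ :=
      Matrix.of (Fin.cons (Pi.single 0 1) B)
    have hM0 : M 0 = Pi.single 0 1 := rfl
    have hMs : ∀ i : Fin n, M i.succ = B i := fun i => rfl
    have hMdet : M.det = b'.det := by
      rw [Matrix.det_succ_row_zero, Fin.sum_univ_succ, hM0]
      have h1 : ∀ j : Fin n, (Pi.single 0 1 : Fin (n + 1) → ℤ) j.succ = 0 := fun j => by
        rw [Pi.single_apply, if_neg (Fin.succ_ne_zero j)]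
      simp only [h1, Pi.single_eq_same, mul_zero, zero_mul, Finset.sum_const_zero, add_zero,
        Fin.val_zero, pow_zero, one_mul]
      congr 1
    refine ⟨M * U, ?_, ?_⟩
    · rw [Matrix.det_mul, hMdet]
      exact hb'.mul hU
    · intro i
      refine Fin.cases ?_ (fun i => ?_) i
      · have h1 : (M * U) 0 = U 0 := by
          have : (M * U) 0 = M 0 ᵥ* U := rfl
          rw [this, hM0, Matrix.single_one_vecMul]
          rfl
        refine ⟨((s / m) / cc (n + 1)) • x₀, hC.smul_mem hx₀ ?_, ?_⟩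
        · rw [abs_div, abs_of_pos hcc', div_le_one hcc']
          exact hsm.trans (sq_le_cc n)
        · rw [h1, hU0, smul_smul]
          congr 1
          field_simp
      · have h1 : (M * U) i.succ = B i ᵥ* U := by
          have : (M * U) i.succ = M i.succ ᵥ* U := rfl
          rw [this, hMs]
        set θ : ℝ := (round ((cc n • (y i ᵥ* Vr)) 0) : ℝ) - (cc n • (y i ᵥ* Vr)) 0 with hθ
        have hθ1 : |θ| ≤ 1 / 2 := by
          rw [hθ, abs_sub_comm]
          exact abs_sub_round _
        have h2 : toR (B i) = cc n • (y i ᵥ* Vr) + θ • (Pi.single 0 1 : Fin (n + 1) → ℝ) := by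
          funext j
          refine Fin.cases ?_ (fun j => ?_) j
          · simp only [B, toR, Fin.cons_zero, Pi.add_apply, Pi.smul_apply, smul_eq_mul,
              Pi.single_eq_same, mul_one, hθ]
            ring
          · have h3 := congrFun (hy i) j
            simp only [B, toR, Fin.cons_succ, Pi.add_apply, Pi.smul_apply, smul_eq_mul,
              Pi.single_apply, if_neg (Fin.succ_ne_zero j), mul_zero, add_zero]
            exact h3
        have h3 : toR ((M * U) i.succ) = cc n • y i + (θ * (s / m)) • x₀ := by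
          rw [h1, toR_vecMul, ← hUr, h2, Matrix.add_vecMul, Matrix.smul_vecMul,
            Matrix.smul_vecMul, Matrix.vecMul_vecMul, hr, Matrix.vecMul_one,
            Matrix.single_one_vecMul]
          congr 1
          have h4 : (fun j => Ur 0 j) = toR (U 0) := rfl
          have h5 : Ur.row 0 = toR (U 0) := rfl
          rw [h5, hU0, smul_smul]
        refine ⟨(cc n / cc (n + 1)) • y i + ((θ * (s / m)) / cc (n + 1)) • x₀, ?_, ?_⟩
        · have h4 := hC.sum_mem (Finset.univ : Finset (Fin 2))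
            ![cc n / cc (n + 1), (θ * (s / m)) / cc (n + 1)] ![y i, x₀] ?_ ?_
          · simpa [Fin.sum_univ_two] using h4
          · intro j _
            fin_cases j
            · exact hyC i
            · exact hx₀
          · simp only [Fin.sum_univ_two, Matrix.cons_val_zero, Matrix.cons_val_one]
            rw [abs_div, abs_div, abs_of_pos hcc', abs_of_pos hcc, ← add_div, div_le_one hcc',
              abs_mul, ← cc_succ]
            have h6 : |θ| * |s / m| ≤ 1 / 2 * s :=
              mul_le_mul hθ1 hsm (abs_nonneg _) (by norm_num)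
            rw [hs] at h6 ⊢
            linarith
        · rw [h3, smul_add, smul_smul, smul_smul]
          congr 2
          · field_simp
          · field_simp

end Helper31.Ewald
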