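import Pool.Agent.Helper31.Ewald.Long3

/-!
Smooth lattice polytopes in which the origin has large lattice distance from all facets: the
intersection `P ∩ -P` has large lattice width.
-/

namespace Helper31.Ewald

open Matrix Set

variable {n : ℕ} {P : Set (Fin n → ℝ)} {w : (Fin n → ℤ) → (Fin n → ℤ)}

/-- A vertex minimising both `p` and `p + k u`. -/
theorem vertex_bound2 (hP : IsSmoothPolytope P) (hw : MinVert P w) {N : ℤ} (hN0 : 0 ≤ N)
    (hN : ∀ p, p ≠ 0 → p ⬝ᵥ w p ≤ -N) {v : Fin n → ℤ} (hv : toR v ∈ P.extremePoints ℝ)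
    {u : Fin n → ℤ} (hu : u ≠ 0) (p : Fin n → ℤ) (k : ℕ)
    (hp : ∀ x ∈ P, ((p ⬝ᵥ v : ℤ) : ℝ) ≤ toR p ⬝ᵥ x)
    (hq : ∀ x ∈ P, (((p + (k : ℤ) • u) ⬝ᵥ v : ℤ) : ℝ) ≤ toR (p + (k : ℤ) • u) ⬝ᵥ x) :
    p ⬝ᵥ v + (p + (k : ℤ) • u) ⬝ᵥ v ≤ -(N * k) := by
  obtain ⟨e, hdet, hedge, hcone⟩ := hP.smooth _ hv
  obtain ⟨f, hfe, hR, hZ⟩ := exists_dual e hdet
  have hpos : ∀ q : Fin n → ℤ, (∀ x ∈ P, ((q ⬝ᵥ v : ℤ) : ℝ) ≤ toR q ⬝ᵥ x) →
      ∀ j, 0 ≤ q ⬝ᵥ e j := by
    intro q hq j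
    obtain ⟨t, ht, htP⟩ := hedge j
    have h := hq _ htP
    rw [dotProduct_add, dotProduct_smul, toR_dot, toR_dot, smul_eq_mul] at h
    have h1 : 0 ≤ t * ((q ⬝ᵥ e j : ℤ) : ℝ) := by linarith
    have h2 : 0 ≤ ((q ⬝ᵥ e j : ℤ) : ℝ) := nonneg_of_mul_nonneg_right h1 ht
    exact_mod_cast h2
  have hc : ∀ j, f j ⬝ᵥ v ≤ -N := by
    intro j
    have hfj : f j ≠ 0 := by
      intro h
      have := hfe j j
      rw [h, zero_dotProduct] at this
      simp at this
    have h1 := hN _ hfj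
    obtain ⟨c, hc0, hc⟩ := hcone _ (hw.mem (f j))
    have h2 : toR (f j) ⬝ᵥ toR (w (f j)) = toR (f j) ⬝ᵥ toR v + c j := by
      rw [hc, dotProduct_add, dotProduct_sum]
      congr 1
      have : ∀ i, toR (f j) ⬝ᵥ (c i • toR (e i)) = if j = i then c i else 0 := by
        intro i
        rw [dotProduct_smul, toR_dot, hfe]
        split_ifs <;> simp
      simp only [this]
      simp
    rw [toR_dot, toR_dot] at h2
    have h3 : ((f j ⬝ᵥ v : ℤ) : ℝ) ≤ ((f j ⬝ᵥ w (f j) : ℤ) : ℝ) := by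
      rw [h2]; linarith [hc0 j]
    have h4 : f j ⬝ᵥ v ≤ f j ⬝ᵥ w (f j) := by exact_mod_cast h3
    omega
  have hexp : ∀ q : Fin n → ℤ, q ⬝ᵥ v = ∑ j, (f j ⬝ᵥ v) * (q ⬝ᵥ e j) := by
    intro q
    conv_lhs => rw [hZ q]
    rw [sum_dotProduct]
    exact Finset.sum_congr rfl fun j _ => by rw [smul_dotProduct, smul_eq_mul, mul_comm]
  obtain ⟨i, hi⟩ : ∃ i, u ⬝ᵥ e i ≠ 0 := by
    by_contra hcon
    push Not at hcon
    apply hu
    rw [hZ u]
    simp [hcon]
  set q := p + (k : ℤ) • u with hqdef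
  have hpi := hpos p hp
  have hqi := hpos q hq
  have hk : (k : ℤ) ≤ p ⬝ᵥ e i + q ⬝ᵥ e i := by
    have h1 : q ⬝ᵥ e i = p ⬝ᵥ e i + k * (u ⬝ᵥ e i) := by
      rw [hqdef, add_dotProduct, smul_dotProduct, smul_eq_mul]
    have hk0 : (0 : ℤ) ≤ k := Int.natCast_nonneg k
    rcases lt_or_gt_of_ne hi with h | h
    · have h2 : u ⬝ᵥ e i ≤ -1 := by omega
      have h3 : (k : ℤ) * (u ⬝ᵥ e i) ≤ k * (-1) := mul_le_mul_of_nonneg_left h2 hk0
      have h4 := hqi i
      linarith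
    · have h2 : 1 ≤ u ⬝ᵥ e i := by omega
      have h3 : (k : ℤ) * 1 ≤ k * (u ⬝ᵥ e i) := mul_le_mul_of_nonneg_left h2 hk0
      have h4 := hpi i
      linarith
  rw [hexp p, hexp q, ← Finset.sum_add_distrib]
  have h5 : ∀ j, (f j ⬝ᵥ v) * (p ⬝ᵥ e j) + (f j ⬝ᵥ v) * (q ⬝ᵥ e j) ≤
      -(N * (p ⬝ᵥ e j + q ⬝ᵥ e j)) := fun j => by
    have h6 : (f j ⬝ᵥ v) * (p ⬝ᵥ e j + q ⬝ᵥ e j) ≤ (-N) * (p ⬝ᵥ e j + q ⬝ᵥ e j) :=
      mul_le_mul_of_nonneg_right (hc j) (add_nonneg (hpi j) (hqi j))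
    linarith
  calc _ ≤ ∑ j, -(N * (p ⬝ᵥ e j + q ⬝ᵥ e j)) := Finset.sum_le_sum fun j _ => h5 j
    _ ≤ -(N * (p ⬝ᵥ e i + q ⬝ᵥ e i)) := by
        rw [← Finset.add_sum_erase _ _ (Finset.mem_univ i)]
        have : ∑ j ∈ Finset.univ.erase i, -(N * (p ⬝ᵥ e j + q ⬝ᵥ e j)) ≤ 0 :=
          Finset.sum_nonpos fun j _ => by
            have := mul_nonneg hN0 (add_nonneg (hpi j) (hqi j))
            linarith
        linarith
    _ ≤ -(N * k) := by
        have := mul_le_mul_of_nonneg_left hk hN0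
        linarith

/-- A convex integer sequence with slopes of absolute value at most `t`, whose linear pieces are
short. -/
theorem convex_seq (g : ℕ → ℤ) (N : ℤ) (hg : ∀ i, 0 ≤ g i)
    (hmono : ∀ i, g (i + 1) - g i ≤ g (i + 2) - g (i + 1))
    (hlin : ∀ a b (s : ℤ), a ≤ b → (∀ i, a ≤ i → i < b → g (i + 1) - g i = s) →
      N * ((b : ℤ) - a) ≤ g a + g b) (t : ℕ) :
    ∀ a b : ℕ, a ≤ b → (∀ i, a ≤ i → i < b → -(t : ℤ) ≤ g (i + 1) - g i) →
      (∀ i, a ≤ i → i < b → g (i + 1) - g i ≤ t) →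
      N * ((b : ℤ) - a) ≤ (2 * t + 1) * (g a + g b) := by
  have hmono' : ∀ i j, i ≤ j → g (i + 1) - g i ≤ g (j + 1) - g j := by
    intro i j hij
    induction j, hij using Nat.le_induction with
    | base => exact le_rfl
    | succ j _ ih => exact ih.trans (hmono j)
  induction t with
  | zero =>
    intro a b hab h1 h2
    have := hlin a b 0 hab fun i hi hi' => le_antisymm (by simpa using h2 i hi hi')
      (by simpa using h1 i hi hi')
    simpa using this
  | succ t ih =>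
    intro a b hab h1 h2
    -- first index with slope at least `-t`
    obtain ⟨a', haa', ha'b, h3, h4⟩ : ∃ a', a ≤ a' ∧ a' ≤ b ∧
        (∀ i, a ≤ i → i < a' → g (i + 1) - g i = -((t : ℤ) + 1)) ∧
        ∀ i, a' ≤ i → i < b → -(t : ℤ) ≤ g (i + 1) - g i := by
      classical
      have hex : ∃ a', a ≤ a' ∧ (b ≤ a' ∨ -(t : ℤ) ≤ g (a' + 1) - g a') := ⟨b, hab, Or.inl le_rfl⟩
      have hspec := Nat.find_spec hex
      have hmin := fun m (hm : m < Nat.find hex) => Nat.find_min hex hm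
      refine ⟨Nat.find hex, hspec.1, Nat.find_min' hex ⟨hab, Or.inl le_rfl⟩, ?_, ?_⟩
      · intro i hi hi'
        have h5 := hmin i hi'
        push Not at h5
        obtain ⟨h6, h7⟩ := h5 hi
        have h8 := h1 i hi h6
        push_cast at h8
        omega
      · intro i hi hi'
        rcases hspec.2 with h5 | h5
        · omega
        · exact h5.trans (hmono' _ _ hi)
    obtain ⟨b', hab', hb'b, h5, h6⟩ : ∃ b', a' ≤ b' ∧ b' ≤ b ∧
        (∀ i, a' ≤ i → i < b' → g (i + 1) - g i ≤ t) ∧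
        ∀ i, b' ≤ i → i < b → g (i + 1) - g i = (t : ℤ) + 1 := by
      classical
      have hex : ∃ b', a' ≤ b' ∧ (b ≤ b' ∨ (t : ℤ) < g (b' + 1) - g b') := ⟨b, ha'b, Or.inl le_rfl⟩
      have hspec := Nat.find_spec hex
      have hmin := fun m (hm : m < Nat.find hex) => Nat.find_min hex hm
      refine ⟨Nat.find hex, hspec.1, Nat.find_min' hex ⟨ha'b, Or.inl le_rfl⟩, ?_, ?_⟩
      · intro i hi hi'
        have h5 := hmin i hi'
        push Not at h5
        exact (h5 hi).2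
      · intro i hi hi'
        have h8 := h2 i (by omega) hi'
        push_cast at h8
        rcases hspec.2 with h5 | h5
        · omega
        · have h9 := hmono' _ _ hi
          omega
    have e1 := hlin a a' _ haa' h3
    have e2 := ih a' b' hab' (fun i hi hi' => h4 i hi (by omega)) h5
    have e3 := hlin b' b _ hb'b h6
    -- `g a' ≤ g a`, `g b' ≤ g b`
    have e4 : g a' ≤ g a := by
      have : ∀ m, a ≤ m → m ≤ a' → g m ≤ g a := by
        intro m hm
        induction m, hm using Nat.le_induction with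
        | base => intro _; exact le_rfl
        | succ m hm ihm =>
          intro hm'
          have h7 := ihm (by omega)
          have h8 := h3 m hm (by omega)
          have : (0 : ℤ) ≤ t := Int.natCast_nonneg t
          omega
      exact this a' haa' le_rfl
    have e5 : g b' ≤ g b := by
      have : ∀ m, b' ≤ m → m ≤ b → g b' ≤ g m := by
        intro m hm
        induction m, hm using Nat.le_induction with
        | base => intro _; exact le_rfl
        | succ m hm ihm =>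
          intro hm'
          have h7 := ihm (by omega)
          have h8 := h6 m hm (by omega)
          have : (0 : ℤ) ≤ t := Int.natCast_nonneg t
          omega
      exact this b hb'b le_rfl
    have ht0 : (0 : ℤ) ≤ 2 * t + 1 := by positivity
    have e6 : (2 * (t : ℤ) + 1) * (g a' + g b') ≤ (2 * t + 1) * (g a + g b) :=
      mul_le_mul_of_nonneg_left (by linarith) ht0
    have e7 : N * ((b : ℤ) - a) = N * ((a' : ℤ) - a) + N * ((b' : ℤ) - a') +
        N * ((b : ℤ) - b') := by ring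
    rw [e7]
    push_cast
    nlinarith

/-- The generalised key inequality. -/
theorem key2 (hP : IsSmoothPolytope P) (h0 : (0 : Fin n → ℝ) ∈ interior P)
    (hw : MinVert P w) (ω : ℕ) (hω : 1 ≤ ω)
    (hN : ∀ p, p ≠ 0 → p ⬝ᵥ w p ≤ -((ω : ℤ) * (2 * ω - 1)))
    {u : Fin n → ℤ} (hu : u ≠ 0) (k : ℕ) (p : Fin n → ℤ) :
    p ⬝ᵥ w p + (p + (k : ℤ) • u) ⬝ᵥ w (p + (k : ℤ) • u) ≤ -((ω : ℤ) * k) := by
  induction k generalizing p with
  | zero =>
    have h1 := hw.le_zero h0 p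
    have h2 := hw.le_zero h0 (p + ((0 : ℕ) : ℤ) • u)
    simp only [Nat.cast_zero, mul_zero, neg_zero]
    simp only [Nat.cast_zero] at h2
    linarith
  | succ k ih =>
    by_contra hcon
    push Not at hcon
    set N : ℤ := (ω : ℤ) * (2 * ω - 1) with hNdef
    have hω' : (1 : ℤ) ≤ ω := by exact_mod_cast hω
    have hN0 : 0 ≤ N := by rw [hNdef]; nlinarith
    let g : ℕ → ℤ := fun i => -((p + (i : ℤ) • u) ⬝ᵥ w (p + (i : ℤ) • u))
    have hgdef : ∀ i, g i = -((p + (i : ℤ) • u) ⬝ᵥ w (p + (i : ℤ) • u)) := fun i => rfl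
    have hg0 : g 0 = -(p ⬝ᵥ w p) := by rw [hgdef]; simp
    have hgn : ∀ i, 0 ≤ g i := fun i => by
      have := hw.le_zero h0 (p + (i : ℤ) • u)
      rw [hgdef]; linarith
    -- the subgradient inequality
    have hsub : ∀ i j : ℕ, g i + ((j : ℤ) - i) * (-(u ⬝ᵥ w (p + (i : ℤ) • u))) ≤ g j := by
      intro i j
      have h1 := hw.le_int (p + (j : ℤ) • u) (p + (i : ℤ) • u)
      have h2 : (p + (j : ℤ) • u) ⬝ᵥ w (p + (i : ℤ) • u) =
          (p + (i : ℤ) • u) ⬝ᵥ w (p + (i : ℤ) • u) +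
            ((j : ℤ) - i) * (u ⬝ᵥ w (p + (i : ℤ) • u)) := by
        simp only [add_dotProduct, smul_dotProduct, smul_eq_mul]
        ring
      rw [h2] at h1
      rw [hgdef, hgdef]
      linarith
    have hmono : ∀ i, g (i + 1) - g i ≤ g (i + 2) - g (i + 1) := by
      intro i
      have h1 := hsub (i + 1) i
      have h2 := hsub (i + 1) (i + 2)
      push_cast at h1 h2
      linarith
    have hlin : ∀ a b (s : ℤ), a ≤ b → (∀ i, a ≤ i → i < b → g (i + 1) - g i = s) →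
        N * ((b : ℤ) - a) ≤ g a + g b := by
      intro a b s hab hs
      obtain ⟨m, rfl⟩ := Nat.exists_eq_add_of_le hab
      rcases Nat.lt_or_ge m 2 with hm | hm
      · -- short piece
        have h1 := hgn a
        have h2 := hgn (a + m)
        interval_cases m
        · push_cast
          linarith
        · have hne : p + (a : ℤ) • u ≠ 0 ∨ p + ((a + 1 : ℕ) : ℤ) • u ≠ 0 := by
            by_contra hcon
            push Not at hcon
            obtain ⟨h3, h4⟩ := hcon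
            apply hu
            have h5 : p + ((a + 1 : ℕ) : ℤ) • u = (p + (a : ℤ) • u) + u := by
              push_cast; rw [add_smul, one_smul]; abel
            rw [h5, h3, zero_add] at h4
            exact h4
          push_cast
          rcases hne with h | h
          · have h3 := hN _ h
            have h4 : N ≤ g a := by rw [hgdef]; linarith
            linarith
          · have h3 := hN _ h
            have h4 : N ≤ g (a + 1) := by rw [hgdef]; linarith
            linarith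
      · -- long piece: a common vertex
        set q := p + ((a + 1 : ℕ) : ℤ) • u with hq
        have hval : ∀ i, i ≤ m → g (a + i) = g a + i * s := by
          intro i
          induction i with
          | zero => intro _; simp
          | succ i ihi =>
            intro hi
            have h1 := ihi (by omega)
            have h2 := hs (a + i) (by omega) (by omega)
            rw [show a + (i + 1) = a + i + 1 by ring]
            push_cast
            linarith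
        have hσ : -(u ⬝ᵥ w q) = s := by
          have h1 := hsub (a + 1) a
          have h2 := hsub (a + 1) (a + 2)
          have h3 := hval 1 (by omega)
          have h4 := hval 2 hm
          push_cast at h1 h2 h3 h4
          have hq' : w (p + ((a : ℤ) + 1) • u) = w q := by rw [hq]; push_cast; rfl
          rw [hq'] at h1 h2
          linarith
        have hqa : (p + (a : ℤ) • u) ⬝ᵥ w q = -(g a) := by
          have h1 : q ⬝ᵥ w q = -g (a + 1) := by rw [hgdef, neg_neg]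
          have h2 : q = (p + (a : ℤ) • u) + u := by
            rw [hq]; push_cast; rw [add_smul, one_smul]; abel
          have h3 : q ⬝ᵥ w q = (p + (a : ℤ) • u) ⬝ᵥ w q + u ⬝ᵥ w q :=
            (congrArg (fun z => z ⬝ᵥ w q) h2).trans (add_dotProduct _ _ _)
          have h4 := hval 1 (by omega)
          push_cast at h4
          linarith
        have hqb : (p + ((a + m : ℕ) : ℤ) • u) ⬝ᵥ w q = -(g (a + m)) := by
          have h1 : (p + ((a + m : ℕ) : ℤ) • u) = (p + (a : ℤ) • u) + (m : ℤ) • u := by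
            push_cast; rw [add_smul]; abel
          rw [h1, add_dotProduct, hqa, smul_dotProduct, smul_eq_mul, hval m le_rfl]
          have : u ⬝ᵥ w q = -s := by linarith
          rw [this]
          ring
        have h5 : (p + (a : ℤ) • u) + (m : ℤ) • u = p + ((a + m : ℕ) : ℤ) • u := by
          push_cast; rw [add_smul]; abel
        have hfin := vertex_bound2 hP hw hN0 hN (hw.ext q) hu (p + (a : ℤ) • u) m
          (by
            rw [hqa, hgdef, neg_neg]
            exact hw.le _)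
          (by
            rw [h5, hqb, hgdef, neg_neg]
            exact hw.le _)
        rw [h5, hqa, hqb] at hfin
        push_cast
        linarith
    -- the slopes
    have ih1 := ih (p + u)
    have ih2 := ih p
    have hq1 : (p + u) + (k : ℤ) • u = p + ((k + 1 : ℕ) : ℤ) • u := by
      push_cast; rw [add_smul, one_smul]; abel
    rw [hq1] at ih1
    have hg1 : g 1 = -((p + u) ⬝ᵥ w (p + u)) := by rw [hgdef]; simp
    have hcon' : g 0 + g (k + 1) < ω * (k + 1) := by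
      rw [hg0, hgdef]
      push_cast at hcon ⊢
      linarith
    have ih1' : (ω : ℤ) * k ≤ g 1 + g (k + 1) := by
      rw [hg1, hgdef]
      linarith
    have ih2' : (ω : ℤ) * k ≤ g 0 + g k := by
      rw [hg0, hgdef]
      linarith
    have hmono' : ∀ i j, i ≤ j → g (i + 1) - g i ≤ g (j + 1) - g j := by
      intro i j hij
      induction j, hij using Nat.le_induction with
      | base => exact le_rfl
      | succ j _ ih => exact ih.trans (hmono j)
    have hlow : ∀ i, 0 ≤ i → i < k + 1 → -((ω - 1 : ℕ) : ℤ) ≤ g (i + 1) - g i := by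
      intro i _ _
      have h1 := hmono' 0 i (Nat.zero_le _)
      rw [zero_add] at h1
      have h2 : ((ω - 1 : ℕ) : ℤ) = ω - 1 := by push_cast [hω]; ring
      rw [h2]
      have h3 : (ω : ℤ) * (k + 1) = ω * k + ω := by ring
      linarith
    have hupp : ∀ i, 0 ≤ i → i < k + 1 → g (i + 1) - g i ≤ ((ω - 1 : ℕ) : ℤ) := by
      intro i _ hi
      have h1 := hmono' i k (by omega)
      have h2 : ((ω - 1 : ℕ) : ℤ) = ω - 1 := by push_cast [hω]; ring
      rw [h2]
      have h3 : (ω : ℤ) * (k + 1) = ω * k + ω := by ring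
      linarith
    have hfin := convex_seq g N hgn hmono hlin (ω - 1) 0 (k + 1) (Nat.zero_le _) hlow hupp
    have h2 : ((ω - 1 : ℕ) : ℤ) = ω - 1 := by push_cast [hω]; ring
    rw [h2] at hfin
    push_cast at hfin
    have h3 : (0 : ℤ) < 2 * ((ω : ℤ) - 1) + 1 := by linarith
    have h4 : (2 * ((ω : ℤ) - 1) + 1) * (g 0 + g (k + 1)) <
        (2 * ((ω : ℤ) - 1) + 1) * (ω * (k + 1)) := mul_lt_mul_of_pos_left hcon' h3
    have h5 : (2 * ((ω : ℤ) - 1) + 1) * (ω * (k + 1)) = N * ((k : ℤ) + 1 - 0) := by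
      rw [hNdef]; ring
    linarith

/-- If `0` has lattice distance at least `ω (2 ω - 1)` from all supporting lattice hyperplanes of
`P`, then `P ∩ -P` has width at least `2 ω` in every nonzero integer direction. -/
theorem width2 (hP : IsSmoothPolytope P) (h0 : (0 : Fin n → ℝ) ∈ interior P) (ω : ℕ)
    (hω : 1 ≤ ω)
    (hN : ∀ p : Fin n → ℤ, p ≠ 0 → ∃ x ∈ P, toR p ⬝ᵥ x ≤ -((ω : ℝ) * (2 * ω - 1)))
    {u : Fin n → ℤ} (hu : u ≠ 0) : ∃ x ∈ P, -x ∈ P ∧ toR u ⬝ᵥ x = ω := by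
  by_contra hcon
  push Not at hcon
  have h0P : (0 : Fin n → ℝ) ∈ P := interior_subset h0
  obtain ⟨w, hw⟩ := hP.exists_minVert ⟨0, h0P⟩
  have hN' : ∀ p, p ≠ 0 → p ⬝ᵥ w p ≤ -((ω : ℤ) * (2 * ω - 1)) := fun p hp => by
    obtain ⟨x, hx, hx'⟩ := hN p hp
    have h1 := (hw.le p x hx).trans hx'
    exact_mod_cast h1
  have hωR : (0 : ℝ) < ω := by exact_mod_cast hω
  -- the compact convex set of pairs
  let g : (Fin n → ℝ) × (Fin n → ℝ) → (Fin n → ℝ) × ℝ := fun z => (z.1 + z.2, toR u ⬝ᵥ z.1)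
  have hg : IsLinearMap ℝ g :=
    { map_add := by
        intro a b
        simp only [g, Prod.fst_add, Prod.snd_add, dotProduct_add, Prod.mk_add_mk, Prod.mk.injEq,
          and_true]
        abel
      map_smul := by
        intro c a
        simp [g, dotProduct_smul] }
  have hgc : Continuous g := by
    have h1 : Continuous fun z : (Fin n → ℝ) × (Fin n → ℝ) => toR u ⬝ᵥ z.1 :=
      (continuous_dot (toR u)).comp continuous_fst
    exact (continuous_fst.add continuous_snd).prodMk h1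
  have hKc : IsCompact (g '' (P ×ˢ P)) := (hP.isCompact.prod hP.isCompact).image hgc
  have hKconv : Convex ℝ (g '' (P ×ˢ P)) := (hP.convex.prod hP.convex).is_linear_image hg
  have hnot : ((0, (ω : ℝ)) : (Fin n → ℝ) × ℝ) ∉ g '' (P ×ˢ P) := by
    rintro ⟨⟨x, y⟩, ⟨hx, hy⟩, hxy⟩
    simp only [g, Prod.mk.injEq] at hxy
    obtain ⟨h1, h2⟩ := hxy
    have h3 : y = -x := (neg_eq_of_add_eq_zero_right h1).symm
    exact hcon x hx (h3 ▸ hy) h2
  obtain ⟨F, s, hs1, hs2⟩ := geometric_hahn_banach_point_closed hKconv hKc.isClosed hnot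
  set μ : ℝ := F (0, 1) with hμ
  let A : Fin n → ℝ := fun i => F (Pi.single i 1, 0)
  have hF : ∀ (x : Fin n → ℝ) (t : ℝ), F (x, t) = A ⬝ᵥ x + μ * t := by
    intro x t
    have h1 : ((x, t) : (Fin n → ℝ) × ℝ)
        = ∑ i, x i • ((Pi.single i (1 : ℝ), 0) : (Fin n → ℝ) × ℝ) + t • ((0, 1) : (Fin n → ℝ) × ℝ) := by
      ext i
      · simp [Prod.fst_sum, Finset.sum_apply, Pi.single_apply]
      · simp [Prod.snd_sum]
    rw [h1, map_add, map_sum, map_smul]
    simp only [map_smul, smul_eq_mul, dotProduct, A]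
    rw [← hμ, mul_comm t μ]
    congr 1
    exact Finset.sum_congr rfl fun i _ => mul_comm _ _
  have hsep : ∀ x ∈ P, ∀ y ∈ P, s < A ⬝ᵥ x + A ⬝ᵥ y + μ * (toR u ⬝ᵥ x) := by
    intro x hx y hy
    have h1 := hs2 (g (x, y)) ⟨(x, y), ⟨hx, hy⟩, rfl⟩
    simp only [g] at h1
    rw [hF, dotProduct_add] at h1
    exact h1
  have hs0 : s < 0 := by
    have h1 := hsep 0 h0P 0 h0P
    simpa using h1
  have hFω : F (0, (ω : ℝ)) = μ * ω := by
    rw [hF]
    simp
  rw [hFω] at hs1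
  have hμ0 : μ < 0 := by
    by_contra hcon
    have : 0 ≤ μ * ω := mul_nonneg (not_lt.1 hcon) hωR.le
    linarith
  set ν : ℝ := -μ with hν
  have hν0 : 0 < ν := by linarith
  have hμν : μ = -ν := by rw [hν, neg_neg]
  have hνne : ν ≠ 0 := hν0.ne'
  set δ : ℝ := (s - μ * ω) / ν with hδ
  have hδ0 : 0 < δ := div_pos (by linarith) hν0
  set B : Fin n → ℝ := fun i => A i / ν with hB
  have hBdot : ∀ x, B ⬝ᵥ x = (A ⬝ᵥ x) / ν := by
    intro x
    simp only [dotProduct, hB, Finset.sum_div]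
    exact Finset.sum_congr rfl fun i _ => by ring
  have hsep2 : ∀ x ∈ P, ∀ y ∈ P, -(ω : ℝ) + δ ≤ B ⬝ᵥ x - toR u ⬝ᵥ x + B ⬝ᵥ y := by
    intro x hx y hy
    have h1 := (hsep x hx y hy).le
    rw [hBdot, hBdot]
    have h2 : -(ω : ℝ) + δ = s / ν := by
      rw [hδ, hμν]; field_simp; ring
    rw [h2, div_le_iff₀ hν0]
    have h3 : (A ⬝ᵥ x / ν - toR u ⬝ᵥ x + A ⬝ᵥ y / ν) * ν
        = A ⬝ᵥ x + A ⬝ᵥ y + μ * (toR u ⬝ᵥ x) := by
      rw [hμν]
      field_simp
      ring
    rw [h3]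
    exact h1
  -- a bound for the points of `P`
  obtain ⟨R, hR⟩ : ∃ R : ℝ, ∀ x ∈ P, ∑ i, |x i| ≤ R := by
    have hc : Continuous fun x : Fin n → ℝ => ∑ i, |x i| := by fun_prop
    obtain ⟨R, hR⟩ := (hP.isCompact.image hc).bddAbove
    exact ⟨R, fun x hx => hR ⟨x, hx, rfl⟩⟩
  obtain ⟨k, hk⟩ := exists_nat_gt (2 * R / δ)
  let r : Fin n → ℤ := fun i => round ((k : ℝ) * B i)
  have hr : ∀ i, |(k : ℝ) * B i - (r i : ℝ)| ≤ 1 := fun i =>
    (abs_sub_round _).trans (by norm_num)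
  have hkey := key2 hP h0 hw ω hω hN' hu k (r - (k : ℤ) • u)
  rw [sub_add_cancel] at hkey
  have hx := hw.mem (r - (k : ℤ) • u)
  have hy := hw.mem r
  set x := toR (w (r - (k : ℤ) • u)) with hxdef
  set y := toR (w r) with hydef
  have hdotx : toR (r - (k : ℤ) • u) ⬝ᵥ x + toR r ⬝ᵥ y ≤ -((ω : ℝ) * k) := by
    rw [hxdef, hydef, toR_dot, toR_dot]
    exact_mod_cast hkey
  have hclose : ∀ z ∈ P, (k : ℝ) * (B ⬝ᵥ z) - R ≤ toR r ⬝ᵥ z := by
    intro z hz
    have h1 : (k : ℝ) * (B ⬝ᵥ z) - toR r ⬝ᵥ z = ∑ i, ((k : ℝ) * B i - (r i : ℝ)) * z i := by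
      simp only [dotProduct, toR, Finset.mul_sum]
      rw [← Finset.sum_sub_distrib]
      exact Finset.sum_congr rfl fun i _ => by ring
    have h2 : ∑ i, ((k : ℝ) * B i - (r i : ℝ)) * z i ≤ ∑ i, |z i| := by
      refine Finset.sum_le_sum fun i _ => ?_
      calc ((k : ℝ) * B i - (r i : ℝ)) * z i ≤ |((k : ℝ) * B i - (r i : ℝ)) * z i| := le_abs_self _
        _ = |(k : ℝ) * B i - (r i : ℝ)| * |z i| := abs_mul _ _
        _ ≤ 1 * |z i| := mul_le_mul_of_nonneg_right (hr i) (abs_nonneg _)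
        _ = |z i| := one_mul _
    have h3 := hR z hz
    linarith
  have h1 := hclose x hx
  have h2 := hclose y hy
  have h3 := hsep2 x hx y hy
  rw [toR_sub, toR_smul, sub_dotProduct, smul_dotProduct, smul_eq_mul] at hdotx
  push_cast at hdotx
  have hk0 : (0 : ℝ) ≤ k := Nat.cast_nonneg k
  have h4 : (k : ℝ) * (-(ω : ℝ) + δ) ≤ (k : ℝ) * (B ⬝ᵥ x - toR u ⬝ᵥ x + B ⬝ᵥ y) :=
    mul_le_mul_of_nonneg_left h3 hk0
  have h5 : 2 * R < k * δ := by
    rwa [div_lt_iff₀ hδ0] at hk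
  nlinarith


/-- The body `P ∩ -P`, scaled by `1 / ω`. -/
theorem body_of_deep (hP : IsSmoothPolytope P) (h0 : (0 : Fin n → ℝ) ∈ interior P) (ω : ℕ)
    (hω : 1 ≤ ω)
    (hN : ∀ p : Fin n → ℤ, p ≠ 0 → ∃ x ∈ P, toR p ⬝ᵥ x ≤ -((ω : ℝ) * (2 * ω - 1))) :
    Body {x : Fin n → ℝ | (ω : ℝ) • x ∈ P ∧ -((ω : ℝ) • x) ∈ P} := by
  have hωR : (0 : ℝ) < ω := by exact_mod_cast hω
  have hB := body_of_smooth hP h0
  have hcont : Continuous fun x : Fin n → ℝ => (ω : ℝ) • x := continuous_const_smul _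
  have heq : {x : Fin n → ℝ | (ω : ℝ) • x ∈ P ∧ -((ω : ℝ) • x) ∈ P} =
      (fun x : Fin n → ℝ => (ω : ℝ)⁻¹ • x) '' {x : Fin n → ℝ | x ∈ P ∧ -x ∈ P} := by
    ext x
    constructor
    · intro hx
      exact ⟨(ω : ℝ) • x, hx, by simp only [smul_smul, inv_mul_cancel₀ hωR.ne', one_smul]⟩
    · rintro ⟨y, hy, rfl⟩
      simp only [Set.mem_ofPred_eq, smul_smul, mul_inv_cancel₀ hωR.ne', one_smul]
      exact hy
  refine ⟨?_, ?_, ?_, ?_, ?_⟩
  · rw [heq]
    exact hB.compact.image (continuous_const_smul _)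
  · have h1 := hcont.tendsto (0 : Fin n → ℝ)
    rw [smul_zero] at h1
    exact h1 hB.nhds0
  · intro x hx y hy a b ha hb hab
    have h1 := hB.convex (x := (ω : ℝ) • x) hx (y := (ω : ℝ) • y) hy ha hb hab
    have h2 : (ω : ℝ) • (a • x + b • y) = a • (ω : ℝ) • x + b • (ω : ℝ) • y := by
      rw [smul_add, smul_comm, smul_comm (ω : ℝ) b]
    change (ω : ℝ) • (a • x + b • y) ∈ P ∧ -((ω : ℝ) • (a • x + b • y)) ∈ P
    rw [h2]
    exact h1
  · intro x hx
    have h1 := hB.symm _ hx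
    change (ω : ℝ) • (-x) ∈ P ∧ -((ω : ℝ) • (-x)) ∈ P
    rw [smul_neg]
    exact h1
  · intro u hu
    obtain ⟨x, hx, hx', hux⟩ := width2 hP h0 ω hω hN hu
    refine ⟨(ω : ℝ)⁻¹ • x, ?_, ?_⟩
    · change (ω : ℝ) • ((ω : ℝ)⁻¹ • x) ∈ P ∧ -((ω : ℝ) • ((ω : ℝ)⁻¹ • x)) ∈ P
      rw [smul_smul, mul_inv_cancel₀ hωR.ne', one_smul]
      exact ⟨hx, hx'⟩
    · rw [dotProduct_smul, hux, smul_eq_mul, inv_mul_cancel₀ hωR.ne']

/-- Nill's conjecture for dilates `kP` of smooth polytopes in which `0` is deep. -/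
theorem deep (hP : IsSmoothPolytope P) (h0 : (0 : Fin n → ℝ) ∈ interior P) (ω : ℕ)
    (hω : 1 ≤ ω)
    (hN : ∀ p : Fin n → ℤ, p ≠ 0 → ∃ x ∈ P, toR p ⬝ᵥ x ≤ -((ω : ℝ) * (2 * ω - 1))) {k : ℝ}
    (hk : cc n ≤ k * ω) (hk0 : 0 < k) :
    ∃ b : Matrix (Fin n) (Fin n) ℤ, IsUnit b.det ∧
      ∀ i, ∃ x : Fin n → ℝ, x ∈ P ∧ -x ∈ P ∧ toR (b i) = k • x := by
  have hωR : (0 : ℝ) < ω := by exact_mod_cast hω
  have hC := body_of_deep hP h0 ω hω hN
  obtain ⟨b, hb, hbx⟩ := Body.exists_basis n _ hC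
  refine ⟨b, hb, fun i => ?_⟩
  obtain ⟨x, hx, hxi⟩ := hbx i
  have hcc := cc_pos n
  have h1 : (cc n / (k * ω)) • x ∈ {x : Fin n → ℝ | (ω : ℝ) • x ∈ P ∧ -((ω : ℝ) • x) ∈ P} := by
    refine hC.smul_mem hx ?_
    have h2 : 0 < k * ω := by positivity
    rw [abs_div, abs_of_pos hcc, abs_of_pos h2, div_le_one h2]
    exact hk
  refine ⟨(ω : ℝ) • (cc n / (k * ω)) • x, h1.1, h1.2, ?_⟩
  rw [hxi, smul_smul, smul_smul]
  congr 1
  field_simp

/-- For `ω = 1` the hypothesis on the position of `0` holds for every lattice polytope. -/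
theorem deep_hyp (hP : IsSmoothPolytope P) (h0 : (0 : Fin n → ℝ) ∈ interior P) (ω : ℕ)
    (hω : 1 ≤ ω)
    (h : 1 < ω → ∀ u : Fin n → ℤ, u ≠ 0 → ∃ x ∈ P, ∑ i, (u i : ℝ) * x i ≤
      -((ω : ℝ) * (2 * ω - 1))) (u : Fin n → ℤ) (hu : u ≠ 0) :
    ∃ x ∈ P, ∑ i, (u i : ℝ) * x i ≤ -((ω : ℝ) * (2 * ω - 1)) := by
  rcases Nat.lt_or_ge 1 ω with h1 | h1
  · exact h h1 u hu
  · have h2 : ω = 1 := by omega
    subst h2
    obtain ⟨w, hw⟩ := hP.exists_minVert ⟨0, interior_subset h0⟩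
    refine ⟨toR (w u), hw.mem u, ?_⟩
    have h3 : toR u ⬝ᵥ toR (w u) ≤ -1 := by
      rw [toR_dot]
      exact_mod_cast hw.le_neg_one h0 hu
    calc ∑ i, (u i : ℝ) * toR (w u) i = toR u ⬝ᵥ toR (w u) := rfl
      _ ≤ -1 := h3
      _ = _ := by norm_num

end Helper31.Ewald
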