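import Mathlib

/-!
Smooth lattice polytopes, for Nill's generalisation of Ewald's conjecture.
-/

namespace Helper31.Ewald

/-- The real vector with the integer coordinates `v`. -/
def toR {n : ℕ} (v : Fin n → ℤ) : Fin n → ℝ := fun i => (v i : ℝ)

/-- `P` is a smooth lattice polytope in `ℝⁿ`: it is the convex hull of finitely many integer
points, and at every vertex `v` there is a basis `e` of `ℤⁿ` such that `P` contains a point
`v + t e_j` with `t > 0` for every `j`, and `P` is contained in the cone `v + ∑ ℝ_{≥0} e_j`. (So the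
`e_j` are the primitive vectors along the edges at `v`.) -/
structure IsSmoothPolytope {n : ℕ} (P : Set (Fin n → ℝ)) : Prop where
  lattice : ∃ V : Finset (Fin n → ℤ), P = convexHull ℝ (toR '' (V : Set (Fin n → ℤ)))
  smooth : ∀ v ∈ P.extremePoints ℝ, ∃ e : Fin n → Fin n → ℤ, IsUnit (Matrix.of e).det ∧
    (∀ j, ∃ t : ℝ, 0 < t ∧ v + t • toR (e j) ∈ P) ∧
    ∀ x ∈ P, ∃ c : Fin n → ℝ, (∀ j, 0 ≤ c j) ∧ x = v + ∑ j, c j • toR (e j)

end Helper31.Ewald
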