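import Pool.Agent.Helper31.Ewald.Basis

/-!
Nill's conjecture for sufficiently large dilates of smooth polytopes.
-/

namespace Helper31.Ewald

open Matrix Set

variable {n : ℕ} {P : Set (Fin n → ℝ)}

theorem body_of_smooth (hP : IsSmoothPolytope P) (h0 : (0 : Fin n → ℝ) ∈ interior P) :
    Body {x : Fin n → ℝ | x ∈ P ∧ -x ∈ P} := by
  have hneg : Continuous fun x : Fin n → ℝ => -x := continuous_neg
  refine ⟨?_, ?_, ?_, ?_, ?_⟩
  · have h1 : IsClosed {x : Fin n → ℝ | -x ∈ P} := hP.isCompact.isClosed.preimage hneg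
    exact hP.isCompact.inter_right h1
  · have h1 : P ∈ nhds (0 : Fin n → ℝ) := mem_interior_iff_mem_nhds.1 h0
    have h2 : {x : Fin n → ℝ | -x ∈ P} ∈ nhds (0 : Fin n → ℝ) := by
      have h3 := hneg.tendsto (0 : Fin n → ℝ)
      rw [neg_zero] at h3
      exact h3 h1
    exact Filter.inter_mem h1 h2
  · intro x hx y hy a b ha hb hab
    refine ⟨hP.convex hx.1 hy.1 ha hb hab, ?_⟩
    have h1 := hP.convex hx.2 hy.2 ha hb hab
    have h2 : -(a • x + b • y) = a • -x + b • -y := by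
      rw [smul_neg, smul_neg, neg_add]
    rw [h2]
    exact h1
  · intro x hx
    exact ⟨hx.2, by rw [neg_neg]; exact hx.1⟩
  · intro u hu
    obtain ⟨x, hx, hx', hux⟩ := width hP h0 hu
    exact ⟨x, ⟨hx, hx'⟩, hux⟩

theorem dilated (hP : IsSmoothPolytope P) (h0 : (0 : Fin n → ℝ) ∈ interior P) {k : ℝ}
    (hk : (((n : ℝ) + 1) * ((n : ℝ) + 2) * (2 * (n : ℝ) + 3) + 24) / 48 ≤ k) :
    ∃ b : Matrix (Fin n) (Fin n) ℤ, IsUnit b.det ∧
      ∀ i, ∃ x : Fin n → ℝ, x ∈ P ∧ -x ∈ P ∧ toR (b i) = k • x := by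
  obtain ⟨b, hb, hbx⟩ := Body.exists_basis n _ (body_of_smooth hP h0)
  have hC := body_of_smooth hP h0
  refine ⟨b, hb, fun i => ?_⟩
  obtain ⟨x, hx, hxi⟩ := hbx i
  have hcc := cc_pos n
  have hck : cc n ≤ k := hk
  have hk0 : 0 < k := hcc.trans_le hck
  have h1 : (cc n / k) • x ∈ {x : Fin n → ℝ | x ∈ P ∧ -x ∈ P} := by
    refine hC.smul_mem hx ?_
    rw [abs_div, abs_of_pos hcc, abs_of_pos hk0, div_le_one hk0]
    exact hck
  refine ⟨(cc n / k) • x, h1.1, h1.2, ?_⟩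
  rw [hxi, smul_smul]
  congr 1
  field_simp

end Helper31.Ewald
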