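import Pool.Agent.Helper31.Ewald.Defs

/-!
Smooth lattice polytopes with long edges.
-/

namespace Helper31.Ewald

/-- `P` is a smooth lattice polytope in `ℝⁿ` all of whose edges have lattice length at least `L`:
it is the convex hull of finitely many integer points, and at every vertex `v` there is a basis `e`
of `ℤⁿ` such that `P` contains the points `v + L e_j` and is contained in the cone
`v + ∑ ℝ_{≥0} e_j`. (So the `e_j` are the primitive vectors along the edges at `v`, and the edge in
direction `e_j` has lattice length at least `L`.) -/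
structure IsSmoothLong {n : ℕ} (P : Set (Fin n → ℝ)) (L : ℕ) : Prop where
  lattice : ∃ V : Finset (Fin n → ℤ), P = convexHull ℝ (toR '' (V : Set (Fin n → ℤ)))
  smooth : ∀ v ∈ P.extremePoints ℝ, ∃ e : Fin n → Fin n → ℤ, IsUnit (Matrix.of e).det ∧
    (∀ j, v + (L : ℝ) • toR (e j) ∈ P) ∧
    ∀ x ∈ P, ∃ c : Fin n → ℝ, (∀ j, 0 ≤ c j) ∧ x = v + ∑ j, c j • toR (e j)

end Helper31.Ewald
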