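import Pool.Agent.Helper31.Ewald.Dilated
import Pool.Agent.Helper31.Ewald.LongDefs

/-!
Smooth lattice polytopes with long edges: the zonotope inside `P ∩ -P` and the near facets.
-/

namespace Helper31.Ewald

open Matrix Set

variable {n : ℕ}

theorem IsSmoothLong.toSmooth {P : Set (Fin n → ℝ)} {L : ℕ} (h : IsSmoothLong P L) (hL : 0 < L) :
    IsSmoothPolytope P where
  lattice := h.lattice
  smooth := fun v hv => by
    obtain ⟨e, h1, h2, h3⟩ := h.smooth v hv
    exact ⟨e, h1, fun j => ⟨L, by exact_mod_cast hL, h2 j⟩, h3⟩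

/-- The data of the vertices. -/
structure VD (P : Set (Fin n → ℝ)) (L : ℕ) {ι : Type} (v : ι → Fin n → ℤ)
    (e f : ι → Fin n → Fin n → ℤ) : Prop where
  fe : ∀ i j l, f i j ⬝ᵥ e i l = if j = l then 1 else 0
  expR : ∀ i (x : Fin n → ℝ), x = ∑ l, (toR (f i l) ⬝ᵥ x) • toR (e i l)
  expZ : ∀ i (u : Fin n → ℤ), u = ∑ l, (u ⬝ᵥ e i l) • f i l
  mem : ∀ i, toR (v i) ∈ P
  long : ∀ i j, toR (v i) + (L : ℝ) • toR (e i j) ∈ P
  cone : ∀ i l, ∀ x ∈ P, ((f i l ⬝ᵥ v i : ℤ) : ℝ) ≤ toR (f i l) ⬝ᵥ x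
  min : ∀ p : Fin n → ℝ, ∃ i, ∀ x ∈ P, p ⬝ᵥ toR (v i) ≤ p ⬝ᵥ x
  neg : ∀ i l, f i l ⬝ᵥ v i ≤ -1
  det : ∀ i, IsUnit (Matrix.of (e i)).det

theorem exists_vertexR {P : Set (Fin n → ℝ)} (hP : IsSmoothPolytope P) (hne : P.Nonempty)
    (p : Fin n → ℝ) :
    ∃ w : Fin n → ℤ, toR w ∈ P.extremePoints ℝ ∧ ∀ x ∈ P, p ⬝ᵥ toR w ≤ p ⬝ᵥ x := by
  let l : StrongDual ℝ (Fin n → ℝ) :=
    { toFun := fun x => -(p ⬝ᵥ x)
      map_add' := by intro x y; rw [dotProduct_add]; ring
      map_smul' := by intro c x; rw [dotProduct_smul]; simp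
      cont := (continuous_dot p).neg }
  have hl : ∀ x, l x = -(p ⬝ᵥ x) := fun x => rfl
  have hexp : IsExposed ℝ P (l.toExposed P) := ContinuousLinearMap.toExposed.isExposed
  have hcomp : IsCompact (l.toExposed P) := hexp.isCompact hP.isCompact
  have hnee : (l.toExposed P).Nonempty := by
    obtain ⟨x, hx, hx'⟩ := hP.isCompact.exists_isMaxOn hne l.continuous.continuousOn
    exact ⟨x, hx, fun y hy => hx' hy⟩
  obtain ⟨v, hv⟩ := hcomp.extremePoints_nonempty hnee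
  have hv1 := hexp.isExtreme.extremePoints_subset_extremePoints hv
  obtain ⟨w, rfl⟩ := hP.exists_toR hv1
  refine ⟨w, hv1, fun x hx => ?_⟩
  have h1 := hv.1.2 x hx
  rw [hl, hl] at h1
  linarith

/-- the dual basis -/
theorem exists_dual (e : Fin n → Fin n → ℤ) (hdet : IsUnit (Matrix.of e).det) :
    ∃ f : Fin n → Fin n → ℤ, (∀ j l, f j ⬝ᵥ e l = if j = l then 1 else 0) ∧
      (∀ x : Fin n → ℝ, x = ∑ l, (toR (f l) ⬝ᵥ x) • toR (e l)) ∧
      ∀ u : Fin n → ℤ, u = ∑ l, (u ⬝ᵥ e l) • f l := by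
  set M : Matrix (Fin n) (Fin n) ℤ := Matrix.of e with hM
  have hMM : M * M⁻¹ = 1 := Matrix.mul_nonsing_inv M hdet
  have hMM' : M⁻¹ * M = 1 := Matrix.nonsing_inv_mul M hdet
  have hR : (M⁻¹).map (fun x : ℤ => (x : ℝ)) * M.map (fun x : ℤ => (x : ℝ)) = 1 := by
    have h1 := congrArg (fun M : Matrix (Fin n) (Fin n) ℤ => M.map (fun x : ℤ => (x : ℝ))) hMM'
    have h2 : (M⁻¹ * M).map (fun x : ℤ => (x : ℝ)) =
        (M⁻¹).map (fun x : ℤ => (x : ℝ)) * M.map (fun x : ℤ => (x : ℝ)) :=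
      Matrix.map_mul (f := Int.castRingHom ℝ)
    rw [h2] at h1
    rw [h1]
    exact Matrix.map_one _ Int.cast_zero Int.cast_one
  refine ⟨fun j i => M⁻¹ i j, fun j l => ?_, fun x => ?_, fun u => ?_⟩
  · have h := congrFun (congrFun hMM l) j
    rw [Matrix.mul_apply, Matrix.one_apply] at h
    rw [show (if j = l then (1 : ℤ) else 0) = if l = j then 1 else 0 by
      by_cases h' : j = l
      · simp [h']
      · simp [h', Ne.symm h'], ← h]
    simp only [dotProduct, hM, Matrix.of_apply]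
    exact Finset.sum_congr rfl fun x _ => mul_comm _ _
  · have h : (x ᵥ* (M⁻¹).map (fun x : ℤ => (x : ℝ))) ᵥ* M.map (fun x : ℤ => (x : ℝ)) = x := by
      rw [Matrix.vecMul_vecMul, hR, Matrix.vecMul_one]
    funext b
    have hb := congrFun h b
    rw [← hb, Finset.sum_apply]
    simp only [Pi.smul_apply, smul_eq_mul, Matrix.vecMul, dotProduct]
    refine Finset.sum_congr rfl fun j _ => ?_
    simp only [hM, Matrix.of_apply, Matrix.map_apply, toR]
    congr 1
    exact Finset.sum_congr rfl fun y _ => mul_comm _ _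
  · have h : M⁻¹ *ᵥ (M *ᵥ u) = u := by
      rw [Matrix.mulVec_mulVec, hMM', Matrix.one_mulVec]
    funext b
    have hb := congrFun h b
    rw [← hb, Finset.sum_apply]
    simp only [Pi.smul_apply, smul_eq_mul, Matrix.mulVec, dotProduct]
    refine Finset.sum_congr rfl fun j _ => ?_
    simp only [hM, Matrix.of_apply]
    rw [mul_comm]
    congr 1
    exact Finset.sum_congr rfl fun y _ => mul_comm _ _


theorem exists_VD {P : Set (Fin n → ℝ)} {L : ℕ} (hL : 0 < L) (h : IsSmoothLong P L)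
    (h0 : (0 : Fin n → ℝ) ∈ interior P) :
    ∃ (ι : Type) (_ : Fintype ι) (v : ι → Fin n → ℤ) (e f : ι → Fin n → Fin n → ℤ),
      VD P L v e f := by
  classical
  have hP := h.toSmooth hL
  have h0P : (0 : Fin n → ℝ) ∈ P := interior_subset h0
  obtain ⟨V, hV⟩ := h.lattice
  have hfin : (P.extremePoints ℝ).Finite := by
    rw [hV]
    exact (V.finite_toSet.image _).subset extremePoints_convexHull_subset
  have hLR : (0 : ℝ) < L := by exact_mod_cast hL
  let ι : Type := {w : Fin n → ℤ // toR w ∈ P.extremePoints ℝ}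
  have hfι : Finite ι := by
    have : ({w : Fin n → ℤ | toR w ∈ P.extremePoints ℝ}).Finite :=
      hfin.preimage (toR_injective.injOn)
    exact this.to_subtype
  have hex : ∀ i : ι, ∃ e f : Fin n → Fin n → ℤ, IsUnit (Matrix.of e).det ∧
      (∀ j, toR i.1 + (L : ℝ) • toR (e j) ∈ P) ∧
      (∀ x ∈ P, ∃ c : Fin n → ℝ, (∀ j, 0 ≤ c j) ∧ x = toR i.1 + ∑ j, c j • toR (e j)) ∧
      (∀ j l, f j ⬝ᵥ e l = if j = l then 1 else 0) ∧
      (∀ x : Fin n → ℝ, x = ∑ l, (toR (f l) ⬝ᵥ x) • toR (e l)) ∧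
      ∀ u : Fin n → ℤ, u = ∑ l, (u ⬝ᵥ e l) • f l := by
    intro i
    obtain ⟨e, h1, h2, h3⟩ := h.smooth _ i.2
    obtain ⟨f, h4, h5, h6⟩ := exists_dual e h1
    exact ⟨e, f, h1, h2, h3, h4, h5, h6⟩
  choose e f hdet hlong hcone hfe hR hZ using hex
  have hcone' : ∀ (i : ι) (l), ∀ x ∈ P, ((f i l ⬝ᵥ i.1 : ℤ) : ℝ) ≤ toR (f i l) ⬝ᵥ x := by
    intro i l x hx
    obtain ⟨c, hc0, hc⟩ := hcone i x hx
    have h2 : toR (f i l) ⬝ᵥ x = toR (f i l) ⬝ᵥ toR i.1 + c l := by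
      conv_lhs => rw [hc]
      rw [dotProduct_add, dotProduct_sum]
      congr 1
      have : ∀ j, toR (f i l) ⬝ᵥ (c j • toR (e i j)) = if j = l then c j else 0 := by
        intro j
        rw [dotProduct_smul, toR_dot, hfe]
        by_cases h' : j = l
        · simp [h']
        · simp [h', Ne.symm h']
      simp only [this]
      simp
    rw [h2, toR_dot]
    linarith [hc0 l]
  obtain ⟨w, hw⟩ := hP.exists_minVert ⟨0, h0P⟩
  refine ⟨ι, Fintype.ofFinite ι, fun i => i.1, e, f, ⟨hfe, hR, hZ, fun i => i.2.1, hlong, hcone',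
    fun p => ?_, fun i l => ?_, hdet⟩⟩
  · obtain ⟨q, hq1, hq2⟩ := exists_vertexR hP ⟨0, h0P⟩ p
    exact ⟨⟨q, hq1⟩, hq2⟩
  · have hfj : f i l ≠ 0 := by
      intro h
      have := hfe i l l
      rw [h, zero_dotProduct] at this
      simp at this
    have h1 := hw.le_neg_one h0 hfj
    have h2 := hcone' i l _ (hw.mem (f i l))
    rw [toR_dot] at h2
    have h3 : f i l ⬝ᵥ i.1 ≤ f i l ⬝ᵥ w (f i l) := by exact_mod_cast h2
    omega

/-- Weights from a separation argument. -/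
theorem exists_weights {ι : Type} [Fintype ι] (x : ι → Fin n → ℝ)
    (h : ∀ p : Fin n → ℝ, ∃ i, p ⬝ᵥ x i ≤ 0) :
    ∃ w : ι → ℝ, (∀ i, 0 ≤ w i) ∧ ∑ i, w i = 1 ∧ ∑ i, w i • x i = 0 := by
  classical
  let T : (ι → ℝ) →ₗ[ℝ] (Fin n → ℝ) :=
    { toFun := fun w => ∑ i, w i • x i
      map_add' := by
        intro a b
        rw [← Finset.sum_add_distrib]
        exact Finset.sum_congr rfl fun i _ => by rw [Pi.add_apply, add_smul]
      map_smul' := by
        intro c a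
        rw [Finset.smul_sum]
        exact Finset.sum_congr rfl fun i _ => by
          rw [Pi.smul_apply, smul_eq_mul, mul_smul, RingHom.id_apply] }
  have hTa : ∀ w, T w = ∑ i, w i • x i := fun w => rfl
  by_contra hcon
  push Not at hcon
  have hconv : Convex ℝ (T '' stdSimplex ℝ ι) := (convex_stdSimplex ℝ ι).linear_image T
  have hcomp : IsCompact (T '' stdSimplex ℝ ι) :=
    (isCompact_stdSimplex ℝ ι).image (LinearMap.continuous_of_finiteDimensional T)
  have h0 : (0 : Fin n → ℝ) ∉ T '' stdSimplex ℝ ι := by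
    rintro ⟨w, hw, hw0⟩
    exact hcon w hw.1 hw.2 hw0
  obtain ⟨F, s, hs1, hs2⟩ := geometric_hahn_banach_point_closed hconv hcomp.isClosed h0
  rw [map_zero] at hs1
  obtain ⟨i, hi⟩ := h fun j => F (Pi.single j 1)
  have h1 := hs2 (x i) ⟨Pi.single i 1, single_mem_stdSimplex ℝ i, by
    rw [hTa]
    simp [Pi.single_apply, ite_smul]⟩
  have h2 : F (x i) = (fun j => F (Pi.single j 1)) ⬝ᵥ x i := by
    have h3 : x i = ∑ j, x i j • (Pi.single j (1 : ℝ) : Fin n → ℝ) := by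
      funext j
      simp [Finset.sum_apply, Pi.single_apply]
    conv_lhs => rw [h3]
    rw [map_sum]
    simp only [map_smul, smul_eq_mul, dotProduct]
    exact Finset.sum_congr rfl fun j _ => mul_comm _ _
  linarith

end Helper31.Ewald
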