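import Pool.Agent.Helper31.Ewald.Long1

/-!
Smooth lattice polytopes with long edges: the zonotope inside `P ∩ -P` and the near facets.
-/

namespace Helper31.Ewald

open Matrix Set

variable {n : ℕ} {P : Set (Fin n → ℝ)} {L : ℕ} {ι : Type} [Fintype ι] {v : ι → Fin n → ℤ}
  {e f : ι → Fin n → Fin n → ℤ}

set_option linter.unusedSectionVars false

/-- lattice distance of the origin from the facet `l` at the vertex `i` -/
def cd (v : ι → Fin n → ℤ) (f : ι → Fin n → Fin n → ℤ) (i : ι) (l : Fin n) : ℤ :=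
  -(f i l ⬝ᵥ v i)

/-- side lengths of the corner parallelepipeds -/
noncomputable def td (v : ι → Fin n → ℤ) (f : ι → Fin n → Fin n → ℤ) (s : ℝ) (i : ι)
    (l : Fin n) : ℝ := min (2 * (cd v f i l : ℝ)) s

/-- twice the centre of the corner parallelepiped -/
noncomputable def xx (v : ι → Fin n → ℤ) (e f : ι → Fin n → Fin n → ℤ) (s : ℝ) (i : ι) :
    Fin n → ℝ := (2 : ℝ) • toR (v i) + ∑ l, td v f s i l • toR (e i l)

theorem toR_sum {κ : Type*} (t : Finset κ) (g : κ → Fin n → ℤ) :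
    toR (∑ i ∈ t, g i) = ∑ i ∈ t, toR (g i) := by
  funext j
  simp [toR, Finset.sum_apply]

theorem VD.cd_pos (hV : VD P L v e f) (i : ι) (l : Fin n) : 1 ≤ cd v f i l := by
  have := hV.neg i l
  unfold cd
  omega

theorem VD.cd_posR (hV : VD P L v e f) (i : ι) (l : Fin n) : (1 : ℝ) ≤ cd v f i l := by
  exact_mod_cast hV.cd_pos i l

theorem VD.td_nonneg (hV : VD P L v e f) {s : ℝ} (hs : 0 ≤ s) (i : ι) (l : Fin n) :
    0 ≤ td v f s i l :=
  le_min (by linarith [hV.cd_posR i l]) hs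

theorem VD.dot_v (hV : VD P L v e f) (i : ι) (p : Fin n → ℝ) :
    p ⬝ᵥ toR (v i) = -∑ l, (cd v f i l : ℝ) * (p ⬝ᵥ toR (e i l)) := by
  conv_lhs => rw [hV.expR i (toR (v i))]
  rw [dotProduct_sum, ← Finset.sum_neg_distrib]
  refine Finset.sum_congr rfl fun l _ => ?_
  rw [dotProduct_smul, toR_dot, smul_eq_mul, cd]
  push_cast
  ring

theorem VD.dot_xx (hV : VD P L v e f) (s : ℝ) (i : ι) (p : Fin n → ℝ) :
    p ⬝ᵥ xx v e f s i = ∑ l, (td v f s i l - 2 * cd v f i l) * (p ⬝ᵥ toR (e i l)) := by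
  rw [xx, dotProduct_add, dotProduct_smul, hV.dot_v, dotProduct_sum, smul_eq_mul]
  simp only [dotProduct_smul, smul_eq_mul, sub_mul, Finset.sum_sub_distrib, mul_assoc,
    ← Finset.mul_sum]
  ring

theorem VD.edge_nonneg (hV : VD P L v e f) (hL : 0 < L) {i : ι} {p : Fin n → ℝ}
    (hp : ∀ x ∈ P, p ⬝ᵥ toR (v i) ≤ p ⬝ᵥ x) (l : Fin n) : 0 ≤ p ⬝ᵥ toR (e i l) := by
  have h1 := hp _ (hV.long i l)
  rw [dotProduct_add, dotProduct_smul, smul_eq_mul] at h1
  have h2 : (0 : ℝ) < L := by exact_mod_cast hL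
  have h3 : 0 ≤ (L : ℝ) * (p ⬝ᵥ toR (e i l)) := by linarith
  exact nonneg_of_mul_nonneg_right h3 h2

theorem VD.exists_w (hV : VD P L v e f) (hL : 0 < L) (s : ℝ) :
    ∃ w : ι → ℝ, (∀ i, 0 ≤ w i) ∧ ∑ i, w i = 1 ∧ ∑ i, w i • xx v e f s i = 0 := by
  refine exists_weights _ fun p => ?_
  obtain ⟨i, hi⟩ := hV.min p
  refine ⟨i, ?_⟩
  rw [hV.dot_xx]
  refine Finset.sum_nonpos fun l _ => ?_
  have h1 : td v f s i l ≤ 2 * cd v f i l := min_le_left _ _
  exact mul_nonpos_of_nonpos_of_nonneg (by linarith) (hV.edge_nonneg hL hi l)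

theorem VD.point_mem (hV : VD P L v e f) (hL : 0 < L) (hP : Convex ℝ P) (i : ι) (r : Fin n → ℝ)
    (hr : ∀ l, 0 ≤ r l) (hsum : ∑ l, r l ≤ L) :
    toR (v i) + ∑ l, r l • toR (e i l) ∈ P := by
  have h2 : (0 : ℝ) < L := by exact_mod_cast hL
  have h3 : ∑ l, (r l / L) • (toR (v i) + (L : ℝ) • toR (e i l)) +
      (1 - ∑ l, r l / L) • toR (v i) = toR (v i) + ∑ l, r l • toR (e i l) := by
    have h4 : ∀ l, (r l / L) • (toR (v i) + (L : ℝ) • toR (e i l)) =
        (r l / L) • toR (v i) + r l • toR (e i l) := fun l => by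
      rw [smul_add, smul_smul, div_mul_cancel₀ _ h2.ne']
    simp only [h4, Finset.sum_add_distrib, ← Finset.sum_smul, sub_smul, one_smul]
    abel
  rw [← h3]
  have h5 : ∑ l, r l / L ≤ 1 := by
    rw [← Finset.sum_div, div_le_one h2]
    exact hsum
  have h6 := hP.sum_mem (t := (Finset.univ : Finset (Option (Fin n))))
    (w := fun o => o.elim (1 - ∑ l, r l / L) fun l => r l / L)
    (z := fun o => o.elim (toR (v i)) fun l => toR (v i) + (L : ℝ) • toR (e i l)) ?_ ?_ ?_
  · rw [Fintype.sum_option] at h6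
    simp only [Option.elim_none, Option.elim_some] at h6
    rwa [add_comm] at h6
  · rintro (_ | l) _
    · simp only [Option.elim_none]
      linarith
    · simp only [Option.elim_some]
      exact div_nonneg (hr l) h2.le
  · rw [Fintype.sum_option]
    simp
  · rintro (_ | l) _
    · exact hV.mem i
    · exact hV.long i l

/-- The zonotope inside `P` (and inside `-P`). -/
theorem VD.zono (hV : VD P L v e f) (hL : 0 < L) (hP : Convex ℝ P) {s : ℝ} (hs : 0 ≤ s)
    (hns : n * s ≤ L) {w : ι → ℝ} (hw : ∀ i, 0 ≤ w i) (hw1 : ∑ i, w i = 1)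
    (hw0 : ∑ i, w i • xx v e f s i = 0) (r : ι → Fin n → ℝ)
    (hr : ∀ i l, |r i l| ≤ td v f s i l / 2) :
    ∑ i, w i • ∑ l, r i l • toR (e i l) ∈ P := by
  have h1 : ∀ i, toR (v i) + ∑ l, (r i l + td v f s i l / 2) • toR (e i l) ∈ P := fun i => by
    refine hV.point_mem hL hP i _ (fun l => ?_) ?_
    · linarith [(abs_le.1 (hr i l)).1]
    · calc ∑ l, (r i l + td v f s i l / 2) ≤ ∑ _l : Fin n, s := by
            refine Finset.sum_le_sum fun l _ => ?_
            have h2 := (abs_le.1 (hr i l)).2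
            have h3 : td v f s i l ≤ s := min_le_right _ _
            linarith
        _ = n * s := by simp
        _ ≤ L := hns
  have h2 := hP.sum_mem (t := Finset.univ) (w := w)
    (z := fun i => toR (v i) + ∑ l, (r i l + td v f s i l / 2) • toR (e i l))
    (fun i _ => hw i) hw1 (fun i _ => h1 i)
  have h3 : ∀ i, toR (v i) + ∑ l, (r i l + td v f s i l / 2) • toR (e i l) =
      ∑ l, r i l • toR (e i l) + (1 / 2 : ℝ) • xx v e f s i := fun i => by
    rw [xx, smul_add, smul_smul, Finset.smul_sum]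
    simp only [add_smul, Finset.sum_add_distrib, smul_smul]
    have : ∀ l, td v f s i l / 2 = 1 / 2 * td v f s i l := fun l => by ring
    simp only [this]
    norm_num
    abel
  simp only [h3, smul_add, Finset.sum_add_distrib] at h2
  have h4 : ∑ i, w i • (1 / 2 : ℝ) • xx v e f s i = 0 := by
    have : ∀ i, w i • (1 / 2 : ℝ) • xx v e f s i = (1 / 2 : ℝ) • (w i • xx v e f s i) :=
      fun i => smul_comm _ _ _
    simp only [this, ← Finset.smul_sum, hw0, smul_zero]
  rwa [h4, add_zero] at h2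

/-- A facet which is near to the origin contains all vertices of positive weight. -/
theorem VD.near (hV : VD P L v e f) (hL : 0 < L) {s : ℝ} (hs : 0 ≤ s)
    (hns : n * s ≤ L) (hsL : s < L) (i : ι) (j : Fin n) (hj : 2 * (cd v f i j : ℝ) ≤ s) (i' : ι) :
    0 ≤ toR (f i j) ⬝ᵥ xx v e f s i' ∧
      (toR (f i j) ⬝ᵥ xx v e f s i' = 0 → ∃ l, f i' l = f i j ∧ cd v f i' l = cd v f i j) := by
  have hLR : (0 : ℝ) < L := by exact_mod_cast hL
  set ρ := f i j with hρ
  set b := cd v f i j with hb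
  have hmin : ∀ x ∈ P, -(b : ℝ) ≤ toR ρ ⬝ᵥ x := fun x hx => by
    have h1 := hV.cone i j x hx
    rw [hb, cd]
    push_cast
    linarith
  have hvi : ρ ⬝ᵥ v i = -b := by rw [hb, cd, neg_neg]
  have hlong : ∀ l, -(b : ℝ) ≤ ((ρ ⬝ᵥ v i' : ℤ) : ℝ) + L * ((ρ ⬝ᵥ e i' l : ℤ) : ℝ) := fun l => by
    have h1 := hmin _ (hV.long i' l)
    rwa [dotProduct_add, dotProduct_smul, toR_dot, toR_dot, smul_eq_mul] at h1
  have hge : -b ≤ ρ ⬝ᵥ v i' := by
    have h1 := hmin _ (hV.mem i')
    rw [toR_dot] at h1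
    exact_mod_cast h1
  rcases hge.lt_or_eq with hlt | heq
  · -- far vertex
    have h1 : ∃ l, ρ ⬝ᵥ e i' l ≤ -1 := by
      by_contra hcon
      push Not at hcon
      have h2 : toR ρ ⬝ᵥ (toR (v i) - toR (v i')) =
          ∑ l, (toR (f i' l) ⬝ᵥ (toR (v i) - toR (v i'))) * ((ρ ⬝ᵥ e i' l : ℤ) : ℝ) := by
        conv_lhs => rw [hV.expR i' (toR (v i) - toR (v i'))]
        rw [dotProduct_sum]
        refine Finset.sum_congr rfl fun l _ => ?_
        rw [dotProduct_smul, toR_dot, smul_eq_mul]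
      have h3 : 0 ≤ toR ρ ⬝ᵥ (toR (v i) - toR (v i')) := by
        rw [h2]
        refine Finset.sum_nonneg fun l _ => mul_nonneg ?_ ?_
        · have h4 := hV.cone i' l _ (hV.mem i)
          rw [dotProduct_sub, toR_dot (f i' l) (v i')]
          linarith
        · have := hcon l
          exact_mod_cast (show 0 ≤ ρ ⬝ᵥ e i' l by omega)
      rw [dotProduct_sub, toR_dot, toR_dot, hvi] at h3
      have h4 : ((ρ ⬝ᵥ v i' : ℤ) : ℝ) ≤ ((-b : ℤ) : ℝ) := by linarith
      have h5 : ρ ⬝ᵥ v i' ≤ -b := by exact_mod_cast h4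
      omega
    obtain ⟨l₀, hl₀⟩ := h1
    set g : ℝ := ((ρ ⬝ᵥ v i' : ℤ) : ℝ) + b with hg
    have hgL : (L : ℝ) ≤ g := by
      have h2 := hlong l₀
      have h3 : ((ρ ⬝ᵥ e i' l₀ : ℤ) : ℝ) ≤ -1 := by exact_mod_cast hl₀
      have h4 : (L : ℝ) * ((ρ ⬝ᵥ e i' l₀ : ℤ) : ℝ) ≤ (L : ℝ) * (-1) :=
        mul_le_mul_of_nonneg_left h3 hLR.le
      linarith
    have hgL0 : 0 ≤ g / L := div_nonneg (hLR.le.trans hgL) hLR.le
    have hpos : 0 < toR ρ ⬝ᵥ xx v e f s i' := by
      rw [xx, dotProduct_add, dotProduct_smul, toR_dot, dotProduct_sum, smul_eq_mul]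
      have h2 : ∀ l, -(td v f s i' l * (g / L)) ≤
          toR ρ ⬝ᵥ td v f s i' l • toR (e i' l) := fun l => by
        rw [dotProduct_smul, toR_dot, smul_eq_mul]
        have h3 := hlong l
        have h4 : -(g / L) ≤ ((ρ ⬝ᵥ e i' l : ℤ) : ℝ) := by
          rw [neg_le_iff_add_nonneg, ← sub_nonneg] at *
          have h5 : 0 ≤ (g + L * ((ρ ⬝ᵥ e i' l : ℤ) : ℝ)) / L := by
            refine div_nonneg ?_ hLR.le
            rw [hg]; linarith
          rw [add_div, mul_div_cancel_left₀ _ hLR.ne'] at h5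
          linarith
        have h5 := hV.td_nonneg hs i' l
        nlinarith
      have h3 : -(g) ≤ ∑ l, toR ρ ⬝ᵥ td v f s i' l • toR (e i' l) := by
        calc -g ≤ -((n * s) * (g / L)) := by
              have h4 : (n * s) * (g / L) ≤ L * (g / L) :=
                mul_le_mul_of_nonneg_right hns hgL0
              rw [mul_div_cancel₀ _ hLR.ne'] at h4
              linarith
          _ ≤ -(∑ l, td v f s i' l) * (g / L) := by
              have h4 : ∑ l, td v f s i' l ≤ n * s := by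
                calc ∑ l, td v f s i' l ≤ ∑ _l : Fin n, s :=
                      Finset.sum_le_sum fun l _ => min_le_right _ _
                  _ = n * s := by simp
              have h5 : (∑ l, td v f s i' l) * (g / L) ≤ (n * s) * (g / L) :=
                mul_le_mul_of_nonneg_right h4 hgL0
              linarith
          _ = ∑ l, -(td v f s i' l * (g / L)) := by
              rw [Finset.sum_neg_distrib, neg_mul, Finset.sum_mul]
          _ ≤ _ := Finset.sum_le_sum fun l _ => h2 l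
      have h4 : ((ρ ⬝ᵥ v i' : ℤ) : ℝ) = g - b := by rw [hg]; ring
      rw [h4]
      linarith
    exact ⟨hpos.le, fun h => absurd h hpos.ne'⟩
  · -- the vertex lies on the facet
    have hm : ∀ l, 0 ≤ ρ ⬝ᵥ e i' l := fun l => by
      have h1 := hlong l
      rw [← heq] at h1
      push_cast at h1
      have h2 : 0 ≤ (L : ℝ) * ((ρ ⬝ᵥ e i' l : ℤ) : ℝ) := by linarith
      exact_mod_cast nonneg_of_mul_nonneg_right h2 hLR
    have hρ0 : ρ ≠ 0 := by
      intro h
      have h1 := hV.fe i j j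
      rw [← hρ, h, zero_dotProduct] at h1
      simp at h1
    obtain ⟨l, hl⟩ : ∃ l, ρ ⬝ᵥ e i' l ≠ 0 := by
      by_contra hcon
      push Not at hcon
      apply hρ0
      rw [hV.expZ i' ρ]
      simp [hcon]
    -- points of `P` on the facet
    have hz : ∀ y ∈ P, toR ρ ⬝ᵥ y = -(b : ℝ) → toR (f i' l) ⬝ᵥ (y - toR (v i')) = 0 := by
      intro y hy hyb
      have h2 : toR ρ ⬝ᵥ (y - toR (v i')) =
          ∑ l, (toR (f i' l) ⬝ᵥ (y - toR (v i'))) * ((ρ ⬝ᵥ e i' l : ℤ) : ℝ) := by
        conv_lhs => rw [hV.expR i' (y - toR (v i'))]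
        rw [dotProduct_sum]
        refine Finset.sum_congr rfl fun l _ => ?_
        rw [dotProduct_smul, toR_dot, smul_eq_mul]
      rw [dotProduct_sub, hyb, toR_dot, ← heq] at h2
      push_cast at h2
      have h3 : ∀ l ∈ Finset.univ,
          0 ≤ (toR (f i' l) ⬝ᵥ (y - toR (v i'))) * ((ρ ⬝ᵥ e i' l : ℤ) : ℝ) := fun l _ => by
        refine mul_nonneg ?_ (by exact_mod_cast hm l)
        have h4 := hV.cone i' l _ hy
        rw [dotProduct_sub, toR_dot (f i' l) (v i')]
        linarith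
      rw [sub_self] at h2
      have h4 := (Finset.sum_eq_zero_iff_of_nonneg h3).1 h2.symm l (Finset.mem_univ l)
      rcases mul_eq_zero.1 h4 with h5 | h5
      · exact h5
      · exact absurd (by exact_mod_cast h5) hl
    have h1 := hz _ (hV.mem i) (by rw [toR_dot, hvi]; push_cast; ring)
    have h2 : ∀ j', j' ≠ j → f i' l ⬝ᵥ e i j' = 0 := by
      intro j' hj'
      have h3 := hz _ (hV.long i j') (by
        rw [dotProduct_add, dotProduct_smul, toR_dot, toR_dot, hvi, hρ, hV.fe, if_neg hj'.symm]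
        push_cast
        simp)
      have h4 : toR (f i' l) ⬝ᵥ ((L : ℝ) • toR (e i j')) = 0 := by
        have h5 : (L : ℝ) • toR (e i j') = (toR (v i) + (L : ℝ) • toR (e i j') - toR (v i')) -
            (toR (v i) - toR (v i')) := by abel
        rw [h5, dotProduct_sub, h1, h3, sub_zero]
      rw [dotProduct_smul, toR_dot, smul_eq_mul] at h4
      rcases mul_eq_zero.1 h4 with h5 | h5
      · exact absurd h5 hLR.ne'
      · exact_mod_cast h5
    have h3 : f i' l = (f i' l ⬝ᵥ e i j) • ρ := by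
      conv_lhs => rw [hV.expZ i (f i' l)]
      rw [Finset.sum_eq_single j (fun j' _ hj' => by rw [h2 j' hj', zero_smul])
        (fun h => absurd (Finset.mem_univ _) h)]
    have h4 : (f i' l ⬝ᵥ e i j) * (ρ ⬝ᵥ e i' l) = 1 := by
      have h5 := hV.fe i' l l
      rw [if_pos rfl] at h5
      conv_lhs at h5 => rw [h3]
      rwa [smul_dotProduct, smul_eq_mul] at h5
    have h5 : ρ ⬝ᵥ e i' l = 1 := by
      rcases Int.eq_one_or_neg_one_of_mul_eq_one' h4 with h | h
      · exact h.2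
      · have := hm l
        omega
    have h6 : f i' l ⬝ᵥ e i j = 1 := by rw [h5, mul_one] at h4; exact h4
    have h7 : f i' l = ρ := by rw [h3, h6, one_smul]
    have h8 : cd v f i' l = b := by rw [cd, h7, ← heq, neg_neg]
    refine ⟨?_, fun _ => ⟨l, h7, h8⟩⟩
    rw [hV.dot_xx]
    refine le_of_eq (Finset.sum_eq_zero fun l' _ => ?_).symm
    by_cases hl' : l' = l
    · have h9 : td v f s i' l' = 2 * cd v f i' l' := by
        rw [td, min_eq_left]
        rw [hl', h8]
        exact hj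
      rw [h9, sub_self, zero_mul]
    · rw [toR_dot, ← h7, hV.fe, if_neg (Ne.symm hl')]
      simp

end Helper31.Ewald
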