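import Pool.Agent.Helper31.Ewald.Long2

/-!
Nill's conjecture for smooth lattice polytopes with long edges: final assembly.
-/

namespace Helper31.Ewald

open Matrix Set

theorem cc_mono : Monotone cc := by
  refine monotone_nat_of_le_succ fun n => ?_
  rw [← cc_succ]
  have : (0 : ℝ) ≤ ((n : ℝ) + 2) ^ 2 / 4 / 2 := by positivity
  linarith

/-- `Body.exists_basis` for an arbitrary finite index type. -/
theorem exists_basis_fintype {D : Type} [Fintype D] [DecidableEq D] (C : Set (D → ℝ))
    (hcomp : IsCompact C) (h0 : C ∈ nhds (0 : D → ℝ)) (hconv : Convex ℝ C)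
    (hsymm : ∀ x ∈ C, -x ∈ C)
    (hwidth : ∀ u : D → ℤ, u ≠ 0 → ∃ x ∈ C, ∑ j, (u j : ℝ) * x j = 1) :
    ∃ b : Matrix D D ℤ, IsUnit b.det ∧
      ∀ i, ∃ x ∈ C, ∀ j, (b i j : ℝ) = cc (Fintype.card D) * x j := by
  classical
  let σ : D ≃ Fin (Fintype.card D) := Fintype.equivFin D
  let T : (Fin (Fintype.card D) → ℝ) ≃L[ℝ] (D → ℝ) :=
    (LinearEquiv.funCongrLeft ℝ ℝ σ).toContinuousLinearEquiv
  have hT : ∀ y j, T y j = y (σ j) := fun y j => rfl
  have hB : Body (T ⁻¹' C) := by
    refine ⟨?_, ?_, ?_, ?_, ?_⟩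
    · have : T ⁻¹' C = T.symm '' C := by
        rw [ContinuousLinearEquiv.image_symm_eq_preimage]
      rw [this]
      exact hcomp.image T.symm.continuous
    · have h1 := T.continuous.tendsto 0
      rw [map_zero] at h1
      exact h1 h0
    · exact hconv.linear_preimage T.toLinearEquiv.toLinearMap
    · intro x hx
      change T (-x) ∈ C
      rw [map_neg]
      exact hsymm _ hx
    · intro u hu
      obtain ⟨x, hx, hux⟩ := hwidth (fun j => u (σ j)) (by
        intro h
        apply hu
        funext a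
        have := congrFun h (σ.symm a)
        simpa using this)
      refine ⟨T.symm x, ?_, ?_⟩
      · change T (T.symm x) ∈ C
        rw [T.apply_symm_apply]
        exact hx
      · rw [← hux]
        have h2 : ∀ j, x j = T.symm x (σ j) := fun j => by
          have h3 := hT (T.symm x) j
          rwa [T.apply_symm_apply] at h3
        simp only [dotProduct, toR, h2]
        exact (Equiv.sum_comp σ (fun a => (u a : ℝ) * T.symm x a)).symm
  obtain ⟨b, hb, hbx⟩ := Body.exists_basis _ _ hB
  refine ⟨b.submatrix σ σ, ?_, fun i => ?_⟩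
  · rw [Matrix.det_submatrix_equiv_self]
    exact hb
  · obtain ⟨x, hx, hxi⟩ := hbx (σ i)
    refine ⟨T x, hx, fun j => ?_⟩
    have := congrFun hxi (σ j)
    simp only [toR, Pi.smul_apply, smul_eq_mul] at this
    rw [Matrix.submatrix_apply, this, hT]


variable {n : ℕ} {P : Set (Fin n → ℝ)} {L : ℕ} {ι : Type} [Fintype ι] {v : ι → Fin n → ℤ}
  {e f : ι → Fin n → Fin n → ℤ}

/-- a point of the zonotope -/
noncomputable def yy (e : ι → Fin n → Fin n → ℤ) (w : ι → ℝ) (r : ι → Fin n → ℝ) : Fin n → ℝ :=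
  ∑ i, w i • ∑ l, r i l • toR (e i l)

theorem dot_yy (w : ι → ℝ) (r : ι → Fin n → ℝ) (p : Fin n → ℝ) :
    p ⬝ᵥ yy e w r = ∑ i, w i * ∑ l, r i l * (p ⬝ᵥ toR (e i l)) := by
  rw [yy, dotProduct_sum]
  refine Finset.sum_congr rfl fun i _ => ?_
  rw [dotProduct_smul, dotProduct_sum, smul_eq_mul]
  congr 1
  exact Finset.sum_congr rfl fun l _ => by rw [dotProduct_smul, smul_eq_mul]

theorem dot_yy_int (w : ι → ℝ) (r : ι → Fin n → ℝ) (p : Fin n → ℤ) :
    toR p ⬝ᵥ yy e w r = ∑ i, w i * ∑ l, r i l * ((p ⬝ᵥ e i l : ℤ) : ℝ) := by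
  rw [dot_yy]
  simp only [toR_dot]

/-- linearity -/
noncomputable def yyL (e : ι → Fin n → Fin n → ℤ) (w : ι → ℝ) (p : Fin n → ℝ) :
    (ι → Fin n → ℝ) →ₗ[ℝ] ℝ where
  toFun := fun r => p ⬝ᵥ yy e w r
  map_add' := by
    intro a b
    simp only [dot_yy, Pi.add_apply, add_mul, Finset.sum_add_distrib, mul_add]
  map_smul' := by
    intro c a
    simp only [dot_yy, Pi.smul_apply, smul_eq_mul, RingHom.id_apply, Finset.mul_sum]
    exact Finset.sum_congr rfl fun i _ => Finset.sum_congr rfl fun l _ => by ring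

theorem dot_yy_sum {D : Type} [Fintype D] (w : ι → ℝ) (r : ι → Fin n → ℝ) (c : D → ℝ)
    (R : D → ι → Fin n → ℝ) (p : Fin n → ℝ) :
    p ⬝ᵥ yy e w (r + ∑ j, c j • R j) = p ⬝ᵥ yy e w r + ∑ j, c j * (p ⬝ᵥ yy e w (R j)) := by
  change yyL e w p (r + ∑ j, c j • R j) = yyL e w p r + ∑ j, c j * yyL e w p (R j)
  rw [map_add, map_sum]
  simp only [map_smul, smul_eq_mul]

theorem yy_neg (w : ι → ℝ) (r : ι → Fin n → ℝ) : yy e w (-r) = -yy e w r := by
  simp [yy, Finset.sum_neg_distrib, neg_smul, smul_neg]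

omit [Fintype ι] in
theorem VD.ext (hV : VD P L v e f) (i : ι) {x y : Fin n → ℝ}
    (h : ∀ j, toR (f i j) ⬝ᵥ x = toR (f i j) ⬝ᵥ y) : x = y := by
  rw [hV.expR i x, hV.expR i y]
  exact Finset.sum_congr rfl fun l _ => by rw [h l]

omit [Fintype ι] in
theorem VD.f_inj (hV : VD P L v e f) (i : ι) : Function.Injective (f i) := by
  intro j l h
  by_contra hne
  have h1 := hV.fe i j j
  have h2 := hV.fe i l j
  rw [if_pos rfl] at h1
  rw [if_neg (Ne.symm hne), ← h, h1] at h2
  exact one_ne_zero h2

omit [Fintype ι] in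
theorem VD.cd_eq (hV : VD P L v e f) {i i' : ι} {l l' : Fin n} (h : f i l = f i' l') :
    cd v f i l = cd v f i' l' := by
  have h1 := hV.cone i l _ (hV.mem i')
  have h2 := hV.cone i' l' _ (hV.mem i)
  rw [toR_dot] at h1 h2
  have h3 : f i l ⬝ᵥ v i ≤ f i l ⬝ᵥ v i' := by exact_mod_cast h1
  have h4 : f i' l' ⬝ᵥ v i' ≤ f i' l' ⬝ᵥ v i := by exact_mod_cast h2
  rw [← h] at h4
  unfold cd
  rw [← h]
  omega

/-- Nill's conjecture for smooth polytopes with long edges, in terms of the vertex data. -/
theorem VD.basis (hV : VD P L v e f) (hL : 0 < L) (hP : Convex ℝ P) (hn : 2 ≤ n) {s : ℝ}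
    (hs : n * cc n ≤ s) (hns : n * s ≤ L) :
    ∃ B : Fin n → Fin n → ℤ, IsUnit (Matrix.of B).det ∧ ∀ k, toR (B k) ∈ P ∧ -toR (B k) ∈ P := by
  classical
  have hnR : (2 : ℝ) ≤ n := by exact_mod_cast hn
  have hcc2 : (9 / 4 : ℝ) ≤ cc n := by
    have h1 := cc_mono hn
    have h2 : cc 2 = 9 / 4 := by unfold cc; norm_num
    linarith
  have hs2 : 2 * cc n ≤ s := by nlinarith
  have hs0 : 0 < s := by linarith
  have hsL : s < L := by nlinarith
  obtain ⟨w, hw, hw1, hw0⟩ := hV.exists_w hL s
  -- the facets near to the origin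
  have near : ∀ i j, 2 * (cd v f i j : ℝ) ≤ s → ∀ i', 0 < w i' →
      ∃ l, f i' l = f i j ∧ cd v f i' l = cd v f i j := by
    intro i j hj i' hi'
    have h1 := fun i' => hV.near hL hs0.le hns hsL i j hj i'
    have h2 : ∑ i', w i' * (toR (f i j) ⬝ᵥ xx v e f s i') = 0 := by
      have h3 := congrArg (fun x => toR (f i j) ⬝ᵥ x) hw0
      simp only [dotProduct_sum, dotProduct_smul, smul_eq_mul, dotProduct_zero] at h3
      exact h3
    have h4 := (Finset.sum_eq_zero_iff_of_nonneg
      (fun i' _ => mul_nonneg (hw i') (h1 i').1)).1 h2 i' (Finset.mem_univ _)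
    rcases mul_eq_zero.1 h4 with h5 | h5
    · exact absurd h5 hi'.ne'
    · exact (h1 i').2 h5
  obtain ⟨i₀, hi₀⟩ : ∃ i, 0 < w i := by
    by_contra hcon
    push Not at hcon
    have : ∑ i, w i ≤ 0 := Finset.sum_nonpos fun i _ => hcon i
    linarith
  -- near coordinates of the zonotope
  have hnc : ∀ j, 2 * (cd v f i₀ j : ℝ) ≤ s → ∀ r : ι → Fin n → ℝ,
      (∀ i l, 2 * (cd v f i l : ℝ) ≤ s → r i l = 0) → toR (f i₀ j) ⬝ᵥ yy e w r = 0 := by
    intro j hj r hr
    rw [dot_yy_int]
    refine Finset.sum_eq_zero fun i _ => ?_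
    rcases (hw i).eq_or_lt with h | h
    · rw [← h, zero_mul]
    · obtain ⟨l', hl', hc⟩ := near i₀ j hj i h
      rw [Finset.sum_eq_zero, mul_zero]
      intro l _
      rw [← hl', hV.fe]
      split_ifs with h1
      · rw [← h1, hr i l' (by rw [hc]; exact hj), zero_mul]
      · simp
  let D : Type := {j : Fin n // s < 2 * (cd v f i₀ j : ℝ)}
  -- the box and the body
  let Bx : Set (ι → Fin n → ℝ) := Set.pi univ fun i => Set.pi univ fun l =>
    if 2 * (cd v f i l : ℝ) ≤ s then {0} else Icc (-1) 1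
  have hBx : ∀ r, r ∈ Bx ↔ ∀ i l, |r i l| ≤ 1 ∧ (2 * (cd v f i l : ℝ) ≤ s → r i l = 0) := by
    intro r
    simp only [Bx, Set.mem_pi, mem_univ, true_imp_iff]
    refine forall_congr' fun i => forall_congr' fun l => ?_
    split_ifs with h
    · simp only [mem_singleton_iff, h, true_imp_iff]
      exact ⟨fun h => ⟨by rw [h]; simp, h⟩, fun h => h.2⟩
    · simp only [h, false_imp_iff, and_true]
      exact ⟨fun h => abs_le.2 h, fun h => abs_le.1 h⟩
  let Ξ : (ι → Fin n → ℝ) →ₗ[ℝ] (D → ℝ) :=
    { toFun := fun r j => toR (f i₀ j.1) ⬝ᵥ yy e w r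
      map_add' := by
        intro a b
        funext j
        simp only [dot_yy, Pi.add_apply, add_mul, Finset.sum_add_distrib, mul_add]
      map_smul' := by
        intro c a
        funext j
        simp only [dot_yy, Pi.smul_apply, smul_eq_mul, RingHom.id_apply, Finset.mul_sum]
        exact Finset.sum_congr rfl fun i _ => Finset.sum_congr rfl fun l _ => by ring }
  have hΞ : ∀ r j, Ξ r j = toR (f i₀ j.1) ⬝ᵥ yy e w r := fun r j => rfl
  have hBc : IsCompact Bx := isCompact_univ_pi fun i => isCompact_univ_pi fun l => by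
    split_ifs
    · exact isCompact_singleton
    · exact isCompact_Icc
  have hBconv : Convex ℝ Bx := convex_pi fun i _ => convex_pi fun l _ => by
    split_ifs
    · exact convex_singleton _
    · exact convex_Icc _ _
  have hnhds : Ξ '' Bx ∈ nhds (0 : D → ℝ) := by
    rw [Metric.mem_nhds_iff]
    refine ⟨w i₀, hi₀, fun x hx => ?_⟩
    rw [mem_ball_zero_iff] at hx
    refine ⟨fun i l => if h : i = i₀ ∧ s < 2 * (cd v f i₀ l : ℝ) then x ⟨l, h.2⟩ / w i₀ else 0,
      ?_, ?_⟩
    · rw [hBx]
      intro i l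
      split_ifs with h
      · refine ⟨?_, fun h' => absurd h' (by rw [h.1]; exact not_le.2 h.2)⟩
        rw [abs_div, abs_of_pos hi₀, div_le_one hi₀]
        exact ((norm_le_pi_norm x ⟨l, h.2⟩).trans hx.le)
      · simp
    · funext j
      rw [hΞ, dot_yy_int, Finset.sum_eq_single i₀]
      · rw [Finset.sum_eq_single j.1]
        · rw [hV.fe, if_pos rfl, dif_pos ⟨rfl, j.2⟩]
          simp only [Int.cast_one, mul_one]
          rw [mul_div_cancel₀ _ hi₀.ne']
        · intro l _ hl
          rw [hV.fe, if_neg (Ne.symm hl)]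
          simp
        · exact fun h => absurd (Finset.mem_univ _) h
      · intro i _ hi
        rw [Finset.sum_eq_zero, mul_zero]
        intro l _
        rw [dif_neg (fun h => hi h.1), zero_mul]
      · exact fun h => absurd (Finset.mem_univ _) h
  have hwidth : ∀ u : D → ℤ, u ≠ 0 → ∃ x ∈ Ξ '' Bx, ∑ j, (u j : ℝ) * x j = 1 := by
    intro u hu
    set U : Fin n → ℤ := ∑ j : D, u j • f i₀ j.1 with hU
    have hUe : ∀ j : D, U ⬝ᵥ e i₀ j.1 = u j := by
      intro j
      rw [hU, sum_dotProduct, Finset.sum_eq_single j]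
      · rw [smul_dotProduct, hV.fe, if_pos rfl]
        simp
      · intro l _ hl
        rw [smul_dotProduct, hV.fe, if_neg (fun h => hl (Subtype.ext h))]
        simp
      · exact fun h => absurd (Finset.mem_univ _) h
    have hval : ∀ r, ∑ j, (u j : ℝ) * Ξ r j = toR U ⬝ᵥ yy e w r := by
      intro r
      rw [hU, toR_sum, sum_dotProduct]
      exact Finset.sum_congr rfl fun j _ => by
        rw [toR_smul, smul_dotProduct, smul_eq_mul, hΞ]
    let r : ι → Fin n → ℝ := fun i l => if 2 * (cd v f i l : ℝ) ≤ s then 0 else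
      (SignType.sign ((U ⬝ᵥ e i l : ℤ) : ℝ) : ℝ)
    have hrB : r ∈ Bx := by
      rw [hBx]
      intro i l
      simp only [r]
      split_ifs with h
      · simp
      · refine ⟨?_, fun h' => absurd h' h⟩
        rcases lt_trichotomy ((U ⬝ᵥ e i l : ℤ) : ℝ) 0 with h1 | h1 | h1
        · rw [sign_neg h1]; simp
        · rw [h1]; simp
        · rw [sign_pos h1]; simp
    set V : ℝ := toR U ⬝ᵥ yy e w r with hVdef
    have hV1 : 1 ≤ V := by
      rw [hVdef, dot_yy_int]
      calc (1 : ℝ) = ∑ i, w i * 1 := by rw [← Finset.sum_mul, hw1, mul_one]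
        _ ≤ _ := by
          refine Finset.sum_le_sum fun i _ => ?_
          rcases (hw i).eq_or_lt with h | h
          · rw [← h, zero_mul, zero_mul]
          · refine mul_le_mul_of_nonneg_left ?_ h.le
            have hterm : ∀ l, 0 ≤ r i l * ((U ⬝ᵥ e i l : ℤ) : ℝ) := fun l => by
              simp only [r]
              split_ifs
              · simp
              · rw [sign_mul_self]
                exact abs_nonneg _
            obtain ⟨l₀, hl₀, hne⟩ : ∃ l, ¬ 2 * (cd v f i l : ℝ) ≤ s ∧ U ⬝ᵥ e i l ≠ 0 := by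
              by_contra hcon
              push Not at hcon
              apply hu
              funext j
              rw [← hUe j, hV.expZ i U, sum_dotProduct]
              refine Finset.sum_eq_zero fun l _ => ?_
              rw [smul_dotProduct, smul_eq_mul]
              rcases lt_or_ge s (2 * (cd v f i l : ℝ)) with h1 | h1
              · rw [hcon l h1, zero_mul]
              · obtain ⟨l', hl', hc⟩ := near i l h1 i₀ hi₀
                rw [← hl', hV.fe, if_neg, mul_zero]
                rintro rfl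
                have h2 := j.2
                rw [hc] at h2
                exact absurd h1 (not_le.2 h2)
            calc (1 : ℝ) ≤ |((U ⬝ᵥ e i l₀ : ℤ) : ℝ)| := by
                  have h1 : (1 : ℤ) ≤ |U ⬝ᵥ e i l₀| := Int.one_le_abs hne
                  exact_mod_cast h1
              _ = r i l₀ * ((U ⬝ᵥ e i l₀ : ℤ) : ℝ) := by
                  simp only [r]
                  rw [if_neg hl₀, sign_mul_self]
              _ ≤ _ := Finset.single_le_sum (fun l _ => hterm l) (Finset.mem_univ l₀)
    have hV0 : 0 < V := by linarith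
    refine ⟨Ξ ((1 / V) • r), ⟨_, ?_, rfl⟩, ?_⟩
    · rw [hBx] at hrB ⊢
      intro i l
      obtain ⟨h1, h2⟩ := hrB i l
      refine ⟨?_, fun h => ?_⟩
      · simp only [Pi.smul_apply, smul_eq_mul]
        rw [abs_mul, abs_of_pos (by positivity), one_div, inv_mul_le_iff₀ hV0, mul_one]
        linarith
      · simp only [Pi.smul_apply, smul_eq_mul]
        rw [h2 h, mul_zero]
    · rw [map_smul]
      simp only [Pi.smul_apply, smul_eq_mul]
      have h1 : ∀ j, (u j : ℝ) * (1 / V * Ξ r j) = 1 / V * ((u j : ℝ) * Ξ r j) := fun j => by ring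
      simp only [h1, ← Finset.mul_sum]
      rw [hval, ← hVdef]
      field_simp
  have hsymm : ∀ x ∈ Ξ '' Bx, -x ∈ Ξ '' Bx := by
    rintro _ ⟨r, hr, rfl⟩
    refine ⟨-r, ?_, map_neg Ξ r⟩
    rw [hBx] at hr ⊢
    intro i l
    obtain ⟨h1, h2⟩ := hr i l
    refine ⟨?_, fun h => ?_⟩
    · simpa using h1
    · simp [h2 h]
  obtain ⟨b, hb, hbx⟩ := exists_basis_fintype (Ξ '' Bx)
    (hBc.image (LinearMap.continuous_of_finiteDimensional Ξ)) hnhds (hBconv.linear_image Ξ)
    hsymm hwidth
  have hbx' : ∀ k : D, ∃ r ∈ Bx, ∀ j, (b k j : ℝ) = cc (Fintype.card D) * Ξ r j := by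
    intro k
    obtain ⟨_, ⟨r, hr, rfl⟩, h⟩ := hbx k
    exact ⟨r, hr, h⟩
  choose R hRB hR using hbx'
  have hdn : Fintype.card D ≤ n := by
    have h1 := Fintype.card_subtype_le (fun j : Fin n => s < 2 * (cd v f i₀ j : ℝ))
    rwa [Fintype.card_fin] at h1
  have hdnR : (Fintype.card D : ℝ) ≤ n := by exact_mod_cast hdn
  have hccd : cc (Fintype.card D) ≤ cc n := cc_mono hdn
  have hccd0 := cc_pos (Fintype.card D)
  set cd' := cc (Fintype.card D) with hcd'
  -- the half side lengths
  have htd : ∀ i l, ¬ 2 * (cd v f i l : ℝ) ≤ s → td v f s i l = s := fun i l h =>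
    min_eq_right (not_le.1 h).le
  have htd1 : ∀ i l, 1 ≤ td v f s i l / 2 := fun i l => by
    have h1 := hV.cd_posR i l
    have h2 : 2 ≤ td v f s i l := le_min (by linarith) (by linarith)
    linarith
  -- the rows
  have hrow : ∀ k : Fin n, ∃ (g : Fin n → ℤ) (r : ι → Fin n → ℝ),
      (∀ i l, |r i l| ≤ td v f s i l / 2) ∧
      (∀ j, toR (f i₀ j) ⬝ᵥ yy e w r = g j) ∧
      (∀ hk : s < 2 * (cd v f i₀ k : ℝ), ∀ l (hl : s < 2 * (cd v f i₀ l : ℝ)),
        g l = b ⟨k, hk⟩ ⟨l, hl⟩) ∧
      (s < 2 * (cd v f i₀ k : ℝ) → ∀ l, 2 * (cd v f i₀ l : ℝ) ≤ s → g l = 0) ∧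
      (2 * (cd v f i₀ k : ℝ) ≤ s → ∀ l, 2 * (cd v f i₀ l : ℝ) ≤ s →
        g l = if k = l then 1 else 0) := by
    intro k
    rcases lt_or_ge s (2 * (cd v f i₀ k : ℝ)) with hk | hk
    · -- far row
      refine ⟨fun l => if hl : s < 2 * (cd v f i₀ l : ℝ) then b ⟨k, hk⟩ ⟨l, hl⟩ else 0,
        cd' • R ⟨k, hk⟩, fun i l => ?_, fun j => ?_, fun hk' l hl => ?_, fun _ l hl => ?_,
        fun h => absurd hk (not_lt.2 h)⟩
      · simp only [Pi.smul_apply, smul_eq_mul]
        rw [abs_mul, abs_of_pos hccd0]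
        obtain ⟨h1, h2⟩ := (hBx _).1 (hRB ⟨k, hk⟩) i l
        by_cases h : 2 * (cd v f i l : ℝ) ≤ s
        · rw [h2 h, abs_zero, mul_zero]
          linarith [htd1 i l]
        · rw [htd i l h]
          have h3 : cd' * |R ⟨k, hk⟩ i l| ≤ cd' * 1 := mul_le_mul_of_nonneg_left h1 hccd0.le
          linarith
      · beta_reduce
        split_ifs with hj
        · rw [hR ⟨k, hk⟩ ⟨j, hj⟩, hΞ, dot_yy, dot_yy, Finset.mul_sum]
          refine Finset.sum_congr rfl fun i _ => ?_
          simp only [Pi.smul_apply, smul_eq_mul, Finset.mul_sum]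
          exact Finset.sum_congr rfl fun l _ => by ring
        · rw [Int.cast_zero]
          refine hnc j (not_lt.1 hj) _ fun i l h => ?_
          simp only [Pi.smul_apply, smul_eq_mul]
          rw [((hBx _).1 (hRB ⟨k, hk⟩) i l).2 h, mul_zero]
      · beta_reduce
        rw [dif_pos hl]
      · beta_reduce
        rw [dif_neg (not_lt.2 hl)]
    · -- near row
      let rt : ι → Fin n → ℝ := fun i l => if f i l = f i₀ k then 1 else 0
      let q : D → ℝ := fun j => toR (f i₀ j.1) ⬝ᵥ yy e w rt
      let θ : D → ℝ := q ᵥ* (b⁻¹).map (fun x : ℤ => (x : ℝ))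
      have hθ : ∀ l, ∑ j, θ j * (b j l : ℝ) = q l := by
        intro l
        have h1 : b⁻¹ * b = 1 := Matrix.nonsing_inv_mul b hb
        have h2 : (b⁻¹).map (fun x : ℤ => (x : ℝ)) * b.map (fun x : ℤ => (x : ℝ)) = 1 := by
          have h3 := congrArg (fun M : Matrix D D ℤ => M.map (fun x : ℤ => (x : ℝ))) h1
          have h4 : (b⁻¹ * b).map (fun x : ℤ => (x : ℝ)) =
              (b⁻¹).map (fun x : ℤ => (x : ℝ)) * b.map (fun x : ℤ => (x : ℝ)) :=
            Matrix.map_mul (f := Int.castRingHom ℝ)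
          rw [h4] at h3
          rw [h3]
          exact Matrix.map_one _ Int.cast_zero Int.cast_one
        have h3 : θ ᵥ* b.map (fun x : ℤ => (x : ℝ)) = q := by
          rw [Matrix.vecMul_vecMul, h2, Matrix.vecMul_one]
        have h4 := congrFun h3 l
        simpa [Matrix.vecMul, dotProduct] using h4
      let β : D → ℤ := fun j => round (θ j)
      have hδ : ∀ j, |(β j : ℝ) - θ j| ≤ 1 / 2 := fun j => by
        rw [abs_sub_comm]
        exact abs_sub_round _
      refine ⟨fun l => if hl : s < 2 * (cd v f i₀ l : ℝ) then ∑ j, β j * b j ⟨l, hl⟩ else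
          if k = l then 1 else 0,
        rt + ∑ j, (((β j : ℝ) - θ j) * cd') • R j, fun i l => ?_, fun j => ?_,
        fun h => absurd h (not_lt.2 hk), fun h => absurd h (not_lt.2 hk), fun _ l hl => ?_⟩
      · by_cases h : 2 * (cd v f i l : ℝ) ≤ s
        · have h1 : (rt + ∑ j, (((β j : ℝ) - θ j) * cd') • R j) i l = rt i l := by
            simp only [Pi.add_apply, Finset.sum_apply, Pi.smul_apply, smul_eq_mul]
            rw [Finset.sum_eq_zero, add_zero]
            intro j _
            rw [((hBx _).1 (hRB j) i l).2 h, mul_zero]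
          rw [h1]
          simp only [rt]
          split_ifs
          · rw [abs_one]; exact htd1 i l
          · rw [abs_zero]; linarith [htd1 i l]
        · have h0 : rt i l = 0 := by
            simp only [rt]
            rw [if_neg]
            intro h'
            exact h (by rw [hV.cd_eq h']; exact hk)
          have h1 : (rt + ∑ j, (((β j : ℝ) - θ j) * cd') • R j) i l =
              ∑ j, (((β j : ℝ) - θ j) * cd') * R j i l := by
            simp only [Pi.add_apply, Finset.sum_apply, Pi.smul_apply, smul_eq_mul, h0, zero_add]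
          rw [h1, htd i l h]
          calc |∑ j, (((β j : ℝ) - θ j) * cd') * R j i l|
              ≤ ∑ j, |(((β j : ℝ) - θ j) * cd') * R j i l| := Finset.abs_sum_le_sum_abs _ _
            _ ≤ ∑ _j : D, cd' / 2 := by
                refine Finset.sum_le_sum fun j _ => ?_
                rw [abs_mul, abs_mul, abs_of_pos hccd0]
                have h2 := ((hBx _).1 (hRB j) i l).1
                have h3 := hδ j
                calc |(β j : ℝ) - θ j| * cd' * |R j i l| ≤ 1 / 2 * cd' * 1 := by
                      gcongr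
                  _ = cd' / 2 := by ring
            _ = (Fintype.card D : ℝ) * cd' / 2 := by
                rw [Finset.sum_const, Finset.card_univ, nsmul_eq_mul]
                ring
            _ ≤ s / 2 := by
                have h2 : (Fintype.card D : ℝ) * cd' ≤ n * cc n :=
                  mul_le_mul hdnR hccd hccd0.le (by linarith)
                linarith
      · have hadd : toR (f i₀ j) ⬝ᵥ yy e w (rt + ∑ j, (((β j : ℝ) - θ j) * cd') • R j) =
            toR (f i₀ j) ⬝ᵥ yy e w rt +
              ∑ j', (((β j' : ℝ) - θ j') * cd') * (toR (f i₀ j) ⬝ᵥ yy e w (R j')) := by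
          exact dot_yy_sum w rt _ R _
        rw [hadd]
        beta_reduce
        split_ifs with hj hkj
        · have h1 : ∀ j' : D, (((β j' : ℝ) - θ j') * cd') * (toR (f i₀ j) ⬝ᵥ yy e w (R j')) =
              (β j' : ℝ) * b j' ⟨j, hj⟩ - θ j' * b j' ⟨j, hj⟩ := fun j' => by
            rw [hR j' ⟨j, hj⟩, hΞ]
            ring
          simp only [h1, Finset.sum_sub_distrib, hθ]
          push_cast
          simp only [q]
          ring
        · rw [Finset.sum_eq_zero, add_zero]
          · subst hkj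
            rw [dot_yy_int]
            have h1 : ∀ i, w i * ∑ l, rt i l * ((f i₀ k ⬝ᵥ e i l : ℤ) : ℝ) = w i := by
              intro i
              rcases (hw i).eq_or_lt with h | h
              · rw [← h, zero_mul]
              · obtain ⟨l', hl', hc⟩ := near i₀ k hk i h
                rw [Finset.sum_eq_single l']
                · simp only [rt]
                  rw [if_pos hl', ← hl', hV.fe, if_pos rfl]
                  simp
                · intro l _ hl
                  rw [← hl', hV.fe, if_neg (Ne.symm hl)]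
                  simp
                · exact fun h => absurd (Finset.mem_univ _) h
            simp only [h1, hw1, Int.cast_one]
          · intro j' _
            rw [hnc j (not_lt.1 hj) _ fun i l h => ((hBx _).1 (hRB j') i l).2 h, mul_zero]
        · rw [Finset.sum_eq_zero, add_zero]
          · rw [dot_yy_int, Int.cast_zero]
            refine Finset.sum_eq_zero fun i _ => ?_
            rcases (hw i).eq_or_lt with h | h
            · rw [← h, zero_mul]
            · obtain ⟨l', hl', hc⟩ := near i₀ j (not_lt.1 hj) i h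
              rw [Finset.sum_eq_zero, mul_zero]
              intro l _
              rw [← hl', hV.fe]
              split_ifs with h1
              · simp only [rt]
                rw [if_neg, zero_mul]
                rw [← h1, hl']
                exact fun h2 => hkj (hV.f_inj i₀ h2).symm
              · simp
          · intro j' _
            rw [hnc j (not_lt.1 hj) _ fun i l h => ((hBx _).1 (hRB j') i l).2 h, mul_zero]
      · beta_reduce
        rw [dif_neg (not_lt.2 hl)]
  choose G r hr1 hr2 hG1 hG2 hG3 using hrow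
  refine ⟨fun k => ∑ l, G k l • e i₀ l, ?_, fun k => ?_⟩
  · have h1 : Matrix.of (fun k => ∑ l, G k l • e i₀ l) = Matrix.of G * Matrix.of (e i₀) := by
      ext k l
      simp [Matrix.mul_apply, Finset.sum_apply]
    rw [h1, Matrix.det_mul]
    refine IsUnit.mul ?_ (hV.det i₀)
    rw [Matrix.twoBlockTriangular_det' (Matrix.of G) (fun j => s < 2 * (cd v f i₀ j : ℝ))
      (fun i hi j hj => hG2 i hi j (not_lt.1 hj))]
    refine IsUnit.mul ?_ ?_
    · have h2 : (Matrix.of G).toSquareBlockProp (fun j => s < 2 * (cd v f i₀ j : ℝ)) = b := by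
        ext i j
        rw [Matrix.toSquareBlockProp_def]
        exact hG1 i.1 i.2 j.1 j.2
      rw [h2]
      exact hb
    · have h2 : (Matrix.of G).toSquareBlockProp (fun j => ¬ s < 2 * (cd v f i₀ j : ℝ)) = 1 := by
        ext i j
        rw [Matrix.toSquareBlockProp_def, Matrix.one_apply]
        have h3 := hG3 i.1 (not_lt.1 i.2) j.1 (not_lt.1 j.2)
        change G i.1 j.1 = _
        rw [h3]
        simp only [Subtype.ext_iff]
      rw [h2, Matrix.det_one]
      exact isUnit_one
  · have h1 : toR (∑ l, G k l • e i₀ l) = yy e w (r k) := by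
      refine hV.ext i₀ fun j => ?_
      rw [hr2, toR_dot, dotProduct_sum, Finset.sum_eq_single j]
      · rw [dotProduct_smul, hV.fe, if_pos rfl]
        simp
      · intro l _ hl
        rw [dotProduct_smul, hV.fe, if_neg (Ne.symm hl)]
        simp
      · exact fun h => absurd (Finset.mem_univ _) h
    rw [h1]
    refine ⟨hV.zono hL hP hs0.le hns hw hw1 hw0 (r k) (hr1 k), ?_⟩
    rw [← yy_neg]
    exact hV.zono hL hP hs0.le hns hw hw1 hw0 (-r k) (fun i l => by
      simpa using hr1 k i l)

end Helper31.Ewald
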