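import Pool.Agent.Helper31.Ewald.Long3

/-!
Nill's conjecture for smooth lattice polytopes with edges of lattice length at least `2 n (n + 1)`.
-/

namespace Helper31.Ewald

open Matrix Set

variable {n : ℕ} {P : Set (Fin n → ℝ)} {L : ℕ} {ι : Type} [Fintype ι] {v : ι → Fin n → ℤ}
  {e f : ι → Fin n → Fin n → ℤ}

/-- Weights from a separation argument and Carathéodory's theorem. -/
theorem exists_weights' (x : ι → Fin n → ℝ) (h : ∀ p : Fin n → ℝ, ∃ i, p ⬝ᵥ x i ≤ 0) :
    ∃ w : ι → ℝ, (∀ i, 0 ≤ w i) ∧ ∑ i, w i = 1 ∧ ∑ i, w i • x i = 0 ∧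
      ∃ i, 1 ≤ ((n : ℝ) + 1) * w i := by
  classical
  obtain ⟨w, hw, hw1, hw0⟩ := exists_weights x h
  have h0 : (0 : Fin n → ℝ) ∈ convexHull ℝ (range x) := by
    rw [← hw0]
    exact (convex_convexHull ℝ _).sum_mem (fun i _ => hw i) hw1
      (fun i _ => subset_convexHull ℝ _ ⟨i, rfl⟩)
  obtain ⟨κ, _, z, a, hz, hind, ha, ha1, ha0⟩ := eq_pos_convex_span_of_mem_convexHull h0
  have hz' : ∀ k, ∃ i, x i = z k := fun k => hz ⟨k, rfl⟩
  choose g hg using hz'
  have hcard : Fintype.card κ ≤ n + 1 := by
    have h1 := hind.card_le_finrank_succ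
    have h2 : Module.finrank ℝ (vectorSpan ℝ (range z)) ≤ Module.finrank ℝ (Fin n → ℝ) :=
      Submodule.finrank_le _
    rw [Module.finrank_fin_fun] at h2
    omega
  refine ⟨fun i => ∑ k with g k = i, a k, fun i => Finset.sum_nonneg fun k _ => (ha k).le,
    ?_, ?_, ?_⟩
  · rw [← ha1]
    exact Finset.sum_fiberwise (s := Finset.univ) (g := g) (f := a)
  · rw [← ha0, ← Finset.sum_fiberwise (s := Finset.univ) (g := g) (f := fun k => a k • z k)]
    refine Finset.sum_congr rfl fun i _ => ?_
    rw [Finset.sum_smul]
    refine Finset.sum_congr rfl fun k hk => ?_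
    rw [← hg k, (Finset.mem_filter.1 hk).2]
  · by_contra hcon
    push Not at hcon
    have hk : ∀ k, ((n : ℝ) + 1) * a k < 1 := fun k => by
      refine lt_of_le_of_lt ?_ (hcon (g k))
      refine mul_le_mul_of_nonneg_left ?_ (by positivity)
      exact Finset.single_le_sum (f := a) (fun j _ => (ha j).le)
        (Finset.mem_filter.2 ⟨Finset.mem_univ k, rfl⟩)
    have hne : Nonempty κ := by
      by_contra hemp
      rw [not_nonempty_iff] at hemp
      rw [Finset.univ_eq_empty, Finset.sum_empty] at ha1
      exact zero_ne_one ha1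
    have h1 : ∑ k, ((n : ℝ) + 1) * a k < ∑ _k : κ, (1 : ℝ) :=
      Finset.sum_lt_sum_of_nonempty Finset.univ_nonempty fun k _ => hk k
    rw [← Finset.mul_sum, ha1, mul_one, Finset.sum_const, Finset.card_univ, nsmul_eq_mul,
      mul_one] at h1
    have h2 : (Fintype.card κ : ℝ) ≤ n + 1 := by exact_mod_cast hcard
    linarith

theorem VD.exists_w' (hV : VD P L v e f) (hL : 0 < L) (s : ℝ) :
    ∃ w : ι → ℝ, (∀ i, 0 ≤ w i) ∧ ∑ i, w i = 1 ∧ ∑ i, w i • xx v e f s i = 0 ∧
      ∃ i, 1 ≤ ((n : ℝ) + 1) * w i := by
  refine exists_weights' _ fun p => ?_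
  obtain ⟨i, hi⟩ := hV.min p
  refine ⟨i, ?_⟩
  rw [hV.dot_xx]
  refine Finset.sum_nonpos fun l _ => ?_
  have h1 : td v f s i l ≤ 2 * cd v f i l := min_le_left _ _
  exact mul_nonpos_of_nonpos_of_nonneg (by linarith) (hV.edge_nonneg hL hi l)

/-- Nill's conjecture for smooth polytopes with long edges, in terms of the vertex data. -/
theorem VD.basis2 (hV : VD P L v e f) (hL : 0 < L) (hP : Convex ℝ P) (hn : 2 ≤ n)
    (hLn : 2 * n * (n + 1) ≤ L) :
    ∃ B : Fin n → Fin n → ℤ, IsUnit (Matrix.of B).det ∧ ∀ k, toR (B k) ∈ P ∧ -toR (B k) ∈ P := by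
  classical
  have hnR : (2 : ℝ) ≤ n := by exact_mod_cast hn
  set s : ℝ := 2 * (n + 1) with hs
  have hLR : 2 * (n : ℝ) * (n + 1) ≤ L := by exact_mod_cast hLn
  have hns : n * s ≤ L := by rw [hs]; linarith
  have hs0 : 0 < s := by positivity
  have hsL : s < L := by nlinarith
  obtain ⟨w, hw, hw1, hw0, i₀, hi₀'⟩ := hV.exists_w' hL s
  have hi₀ : 0 < w i₀ := by
    rcases (hw i₀).eq_or_lt with h | h
    · rw [← h, mul_zero] at hi₀'
      linarith
    · exact h
  have hinv : 1 / w i₀ ≤ s / 2 := by
    rw [div_le_iff₀ hi₀, hs]
    linarith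
  -- the facets near to the origin
  have near : ∀ i j, 2 * (cd v f i j : ℝ) ≤ s → ∀ i', 0 < w i' →
      ∃ l, f i' l = f i j ∧ cd v f i' l = cd v f i j := by
    intro i j hj i' hi'
    have h1 := fun i' => hV.near hL hs0.le hns hsL i j hj i'
    have h2 : ∑ i', w i' * (toR (f i j) ⬝ᵥ xx v e f s i') = 0 := by
      have h3 := congrArg (fun x => toR (f i j) ⬝ᵥ x) hw0
      simp only [dotProduct_sum, dotProduct_smul, smul_eq_mul, dotProduct_zero] at h3
      exact h3
    have h4 := (Finset.sum_eq_zero_iff_of_nonneg
      (fun i' _ => mul_nonneg (hw i') (h1 i').1)).1 h2 i' (Finset.mem_univ _)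
    rcases mul_eq_zero.1 h4 with h5 | h5
    · exact absurd h5 hi'.ne'
    · exact (h1 i').2 h5
  have htd : ∀ i l, ¬ 2 * (cd v f i l : ℝ) ≤ s → td v f s i l = s := fun i l h =>
    min_eq_right (not_le.1 h).le
  have htd1 : ∀ i l, 1 ≤ td v f s i l / 2 := fun i l => by
    have h1 := hV.cd_posR i l
    have h2 : 2 ≤ td v f s i l := le_min (by linarith) (by rw [hs]; linarith)
    linarith
  -- the rows
  have hrow : ∀ k : Fin n, ∃ (g : Fin n → ℤ) (r : ι → Fin n → ℝ),
      (∀ i l, |r i l| ≤ td v f s i l / 2) ∧
      (∀ j, toR (f i₀ j) ⬝ᵥ yy e w r = g j) ∧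
      (s < 2 * (cd v f i₀ k : ℝ) → ∀ l, g l = if k = l then 1 else 0) ∧
      (2 * (cd v f i₀ k : ℝ) ≤ s → ∀ l, 2 * (cd v f i₀ l : ℝ) ≤ s →
        g l = if k = l then 1 else 0) := by
    intro k
    rcases lt_or_ge s (2 * (cd v f i₀ k : ℝ)) with hk | hk
    · -- far row
      refine ⟨fun l => if k = l then 1 else 0,
        fun i l => if i = i₀ ∧ l = k then 1 / w i₀ else 0, fun i l => ?_, fun j => ?_,
        fun _ _ => rfl, fun h => absurd hk (not_lt.2 h)⟩
      · beta_reduce
        split_ifs with h
        · rw [h.1, h.2, htd i₀ k (not_le.2 hk), abs_of_pos (by positivity)]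
          exact hinv
        · rw [abs_zero]
          linarith [htd1 i l]
      · rw [dot_yy_int, Finset.sum_eq_single i₀]
        · rw [Finset.sum_eq_single k]
          · rw [if_pos ⟨rfl, rfl⟩, hV.fe]
            by_cases hjk : j = k
            · subst hjk
              simp only [if_true, Int.cast_one, mul_one]
              field_simp
            · beta_reduce
              rw [if_neg hjk, if_neg (Ne.symm hjk)]
              simp
          · intro l _ hl
            rw [if_neg (fun h => hl h.2), zero_mul]
          · exact fun h => absurd (Finset.mem_univ _) h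
        · intro i _ hi
          rw [Finset.sum_eq_zero, mul_zero]
          intro l _
          rw [if_neg (fun h => hi h.1), zero_mul]
        · exact fun h => absurd (Finset.mem_univ _) h
    · -- near row
      let rt : ι → Fin n → ℝ := fun i l => if f i l = f i₀ k then 1 else 0
      let q : Fin n → ℝ := fun j => toR (f i₀ j) ⬝ᵥ yy e w rt
      let R : Fin n → ι → Fin n → ℝ := fun j i l => if i = i₀ ∧ l = j then 1 / w i₀ else 0
      have hRq : ∀ j j', toR (f i₀ j) ⬝ᵥ yy e w (R j') = if j = j' then 1 else 0 := by
        intro j j'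
        rw [dot_yy_int, Finset.sum_eq_single i₀]
        · rw [Finset.sum_eq_single j']
          · have h1 : R j' i₀ j' = 1 / w i₀ := if_pos ⟨rfl, rfl⟩
            rw [h1, hV.fe]
            split_ifs
            · simp only [Int.cast_one, mul_one]
              field_simp
            · simp
          · intro l _ hl
            simp only [R]
            rw [if_neg (fun h => hl h.2), zero_mul]
          · exact fun h => absurd (Finset.mem_univ _) h
        · intro i _ hi
          rw [Finset.sum_eq_zero, mul_zero]
          intro l _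
          simp only [R]
          rw [if_neg (fun h => hi h.1), zero_mul]
        · exact fun h => absurd (Finset.mem_univ _) h
      let δ : Fin n → ℝ := fun j => if s < 2 * (cd v f i₀ j : ℝ) then round (q j) - q j else 0
      have hδ : ∀ j, |δ j| ≤ 1 / 2 := fun j => by
        simp only [δ]
        split_ifs
        · rw [abs_sub_comm]
          exact abs_sub_round _
        · norm_num
      refine ⟨fun l => if s < 2 * (cd v f i₀ l : ℝ) then round (q l) else
          if k = l then 1 else 0,
        rt + ∑ j, δ j • R j, fun i l => ?_, fun j => ?_,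
        fun h => absurd h (not_lt.2 hk), fun _ l hl => ?_⟩
      · have h1 : (rt + ∑ j, δ j • R j) i l = rt i l + if i = i₀ then δ l / w i₀ else 0 := by
          simp only [Pi.add_apply, Finset.sum_apply, Pi.smul_apply, smul_eq_mul, R]
          congr 1
          by_cases hi : i = i₀
          · rw [if_pos hi, Finset.sum_eq_single l]
            · rw [if_pos ⟨hi, rfl⟩]
              ring
            · intro j _ hj
              rw [if_neg (fun h => hj h.2.symm), mul_zero]
            · exact fun h => absurd (Finset.mem_univ _) h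
          · rw [if_neg hi]
            refine Finset.sum_eq_zero fun j _ => ?_
            rw [if_neg (fun h => hi h.1), mul_zero]
        rw [h1]
        by_cases h : 2 * (cd v f i l : ℝ) ≤ s
        · have h2 : (if i = i₀ then δ l / w i₀ else 0) = 0 := by
            split_ifs with hi
            · subst hi
              simp only [δ]
              rw [if_neg (not_lt.2 h), zero_div]
            · rfl
          rw [h2, add_zero]
          simp only [rt]
          split_ifs
          · rw [abs_one]; exact htd1 i l
          · rw [abs_zero]; linarith [htd1 i l]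
        · have h0 : rt i l = 0 := by
            simp only [rt]
            rw [if_neg]
            intro h'
            exact h (by rw [hV.cd_eq h']; exact hk)
          rw [h0, zero_add, htd i l h]
          split_ifs with hi
          · rw [abs_div, abs_of_pos hi₀]
            have h2 := hδ l
            calc |δ l| / w i₀ ≤ (1 / 2) / w i₀ := by gcongr
              _ ≤ 1 / w i₀ := by
                  gcongr
                  norm_num
              _ ≤ s / 2 := hinv
          · rw [abs_zero]
            positivity
      · rw [dot_yy_sum]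
        have h1 : ∑ j', δ j' * (toR (f i₀ j) ⬝ᵥ yy e w (R j')) = δ j := by
          simp only [hRq]
          simp
        rw [h1]
        beta_reduce
        split_ifs with hj hkj
        · simp only [δ]
          rw [if_pos hj]
          simp only [q]
          ring
        · have h2 : δ j = 0 := by simp only [δ]; rw [if_neg hj]
          rw [h2, add_zero]
          subst hkj
          rw [dot_yy_int]
          have h1 : ∀ i, w i * ∑ l, rt i l * ((f i₀ k ⬝ᵥ e i l : ℤ) : ℝ) = w i := by
            intro i
            rcases (hw i).eq_or_lt with h | h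
            · rw [← h, zero_mul]
            · obtain ⟨l', hl', hc⟩ := near i₀ k hk i h
              rw [Finset.sum_eq_single l']
              · simp only [rt]
                rw [if_pos hl', ← hl', hV.fe, if_pos rfl]
                simp
              · intro l _ hl
                rw [← hl', hV.fe, if_neg (Ne.symm hl)]
                simp
              · exact fun h => absurd (Finset.mem_univ _) h
          simp only [h1, hw1, Int.cast_one]
        · have h2 : δ j = 0 := by simp only [δ]; rw [if_neg hj]
          rw [h2, add_zero, dot_yy_int, Int.cast_zero]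
          refine Finset.sum_eq_zero fun i _ => ?_
          rcases (hw i).eq_or_lt with h | h
          · rw [← h, zero_mul]
          · obtain ⟨l', hl', hc⟩ := near i₀ j (not_lt.1 hj) i h
            rw [Finset.sum_eq_zero, mul_zero]
            intro l _
            rw [← hl', hV.fe]
            split_ifs with h1
            · simp only [rt]
              rw [if_neg, zero_mul]
              rw [← h1, hl']
              exact fun h2 => hkj (hV.f_inj i₀ h2).symm
            · simp
      · beta_reduce
        rw [if_neg (not_lt.2 hl)]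
  choose G r hr1 hr2 hG1 hG3 using hrow
  refine ⟨fun k => ∑ l, G k l • e i₀ l, ?_, fun k => ?_⟩
  · have h1 : Matrix.of (fun k => ∑ l, G k l • e i₀ l) = Matrix.of G * Matrix.of (e i₀) := by
      ext k l
      simp [Matrix.mul_apply, Finset.sum_apply]
    rw [h1, Matrix.det_mul]
    refine IsUnit.mul ?_ (hV.det i₀)
    rw [Matrix.twoBlockTriangular_det' (Matrix.of G) (fun j => s < 2 * (cd v f i₀ j : ℝ))
      (fun i hi j hj => by
        change G i j = 0
        rw [hG1 i hi j, if_neg]
        rintro rfl
        exact hj hi)]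
    refine IsUnit.mul ?_ ?_
    · have h2 : (Matrix.of G).toSquareBlockProp (fun j => s < 2 * (cd v f i₀ j : ℝ)) = 1 := by
        ext i j
        rw [Matrix.toSquareBlockProp_def, Matrix.one_apply]
        change G i.1 j.1 = _
        rw [hG1 i.1 i.2 j.1]
        simp only [Subtype.ext_iff]
      rw [h2, Matrix.det_one]
      exact isUnit_one
    · have h2 : (Matrix.of G).toSquareBlockProp (fun j => ¬ s < 2 * (cd v f i₀ j : ℝ)) = 1 := by
        ext i j
        rw [Matrix.toSquareBlockProp_def, Matrix.one_apply]
        change G i.1 j.1 = _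
        rw [hG3 i.1 (not_lt.1 i.2) j.1 (not_lt.1 j.2)]
        simp only [Subtype.ext_iff]
      rw [h2, Matrix.det_one]
      exact isUnit_one
  · have h1 : toR (∑ l, G k l • e i₀ l) = yy e w (r k) := by
      refine hV.ext i₀ fun j => ?_
      rw [hr2, toR_dot, dotProduct_sum, Finset.sum_eq_single j]
      · rw [dotProduct_smul, hV.fe, if_pos rfl]
        simp
      · intro l _ hl
        rw [dotProduct_smul, hV.fe, if_neg (Ne.symm hl)]
        simp
      · exact fun h => absurd (Finset.mem_univ _) h
    rw [h1]
    refine ⟨hV.zono hL hP hs0.le hns hw hw1 hw0 (r k) (hr1 k), ?_⟩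
    rw [← yy_neg]
    exact hV.zono hL hP hs0.le hns hw hw1 hw0 (-r k) (fun i l => by
      simpa using hr1 k i l)

end Helper31.Ewald
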