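import Pool.Agent.Helper31.Ewald.Width

/-!
Minkowski's theorem for systems of linear forms (cross-polytope version).
-/

namespace Helper31.Ewald

open Matrix Set MeasureTheory
open scoped ENNReal Nat

variable {n : ℕ}

theorem volume_l1_lt [NeZero n] (r : ℝ) :
    volume {x : Fin n → ℝ | ∑ i, |x i| < r} =
      (ENNReal.ofReal r) ^ n * ENNReal.ofReal (2 ^ n / (n ! : ℝ)) := by
  have h := MeasureTheory.volume_sum_rpow_lt (ι := Fin n) (p := 1) le_rfl r
  simp only [Real.rpow_one, div_one, Fintype.card_fin] at h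
  rw [h]
  have h2 : Real.Gamma (1 + 1) = 1 := by
    norm_num [Real.Gamma_two]
  rw [h2, mul_one, Real.Gamma_nat_eq_factorial]

theorem volume_l1_le [NeZero n] (r : ℝ) :
    volume {x : Fin n → ℝ | ∑ i, |x i| ≤ r} =
      (ENNReal.ofReal r) ^ n * ENNReal.ofReal (2 ^ n / (n ! : ℝ)) := by
  have h := MeasureTheory.volume_sum_rpow_le (ι := Fin n) (p := 1) le_rfl r
  simp only [Real.rpow_one, div_one, Fintype.card_fin] at h
  rw [h]
  have h2 : Real.Gamma (1 + 1) = 1 := by
    norm_num [Real.Gamma_two]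
  rw [h2, mul_one, Real.Gamma_nat_eq_factorial]

theorem exists_toR_of_mem {x : Fin n → ℝ}
    (hx : x ∈ Submodule.span ℤ (Set.range (Pi.basisFun ℝ (Fin n)))) :
    ∃ y : Fin n → ℤ, toR y = x := by
  have hint : ∀ i, ∃ m : ℤ, (m : ℝ) = x i := by
    intro i
    have h1 := ((Pi.basisFun ℝ (Fin n)).mem_span_iff_repr_mem ℤ x).mp hx i
    obtain ⟨m, hm⟩ := h1
    refine ⟨m, ?_⟩
    simp only [Pi.basisFun_repr] at hm
    rw [← hm]; simp
  choose y hy using hint
  exact ⟨y, funext hy⟩

theorem volume_fd : volume (ZSpan.fundamentalDomain (Pi.basisFun ℝ (Fin n))) = 1 := by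
  rw [ZSpan.fundamentalDomain_pi_basisFun, volume_pi, Measure.pi_pi, Real.volume_Ico, sub_zero,
    ENNReal.ofReal_one, Finset.prod_const_one]

theorem l1_symm (B : Matrix (Fin n) (Fin n) ℝ) (y : Fin n → ℝ) :
    ∑ i, |(B *ᵥ (-y)) i| = ∑ i, |(B *ᵥ y) i| := by
  refine Finset.sum_congr rfl fun i _ => ?_
  rw [Matrix.mulVec_neg, Pi.neg_apply, abs_neg]

theorem l1_convex : ConvexOn ℝ univ fun x : Fin n → ℝ => ∑ i, |x i| := by
  refine ⟨convex_univ, fun x _ y _ a b ha hb _ => ?_⟩
  simp only [Pi.add_apply, Pi.smul_apply, smul_eq_mul]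
  rw [Finset.mul_sum, Finset.mul_sum, ← Finset.sum_add_distrib]
  refine Finset.sum_le_sum fun i _ => ?_
  calc |a * x i + b * y i| ≤ |a * x i| + |b * y i| := abs_add_le _ _
    _ = a * |x i| + b * |y i| := by rw [abs_mul, abs_mul, abs_of_nonneg ha, abs_of_nonneg hb]

theorem volume_aux [NeZero n] (B : Matrix (Fin n) (Fin n) ℝ) (hB : B.det ≠ 0) {s : ℝ}
    (hs : 0 < s) :
    ENNReal.ofReal |(B.det)⁻¹| * ((ENNReal.ofReal s) ^ n * ENNReal.ofReal (2 ^ n / (n ! : ℝ))) =
      ENNReal.ofReal (s ^ n / (|B.det| * n !) * 2 ^ n) := by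
  have h1 : 0 < |B.det| := abs_pos.2 hB
  have h2 : (0 : ℝ) < n ! := by exact_mod_cast Nat.factorial_pos n
  rw [← ENNReal.ofReal_pow hs.le, ← ENNReal.ofReal_mul (by positivity),
    ← ENNReal.ofReal_mul (by positivity)]
  congr 1
  rw [abs_inv]
  field_simp

theorem mink_lt [NeZero n] (B : Matrix (Fin n) (Fin n) ℝ) (hB : B.det ≠ 0) {s : ℝ} (hs : 0 < s)
    (h : |B.det| * n ! < s ^ n) :
    ∃ y : Fin n → ℤ, y ≠ 0 ∧ ∑ i, |(B *ᵥ toR y) i| < s := by
  let S : Set (Fin n → ℝ) := {x | ∑ i, |x i| < s}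
  let f : (Fin n → ℝ) →ₗ[ℝ] (Fin n → ℝ) := Matrix.toLin' B
  have hdet : LinearMap.det f = B.det := LinearMap.det_toLin' B
  have h1 : 0 < |B.det| := abs_pos.2 hB
  have h2 : (0 : ℝ) < n ! := by exact_mod_cast Nat.factorial_pos n
  have hpre : volume (f ⁻¹' S) = ENNReal.ofReal (s ^ n / (|B.det| * n !) * 2 ^ n) := by
    rw [Measure.addHaar_preimage_linearMap volume (by rw [hdet]; exact hB), hdet]
    have h3 : volume S = _ := volume_l1_lt (n := n) s
    rw [h3, volume_aux B hB hs]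
  have fund := ZSpan.isAddFundamentalDomain' (Pi.basisFun ℝ (Fin n))
    (volume : Measure (Fin n → ℝ))
  have hcount : Countable (Submodule.span ℤ (Set.range (Pi.basisFun ℝ (Fin n)))).toAddSubgroup := by
    have : Countable (Submodule.span ℤ (Set.range (Pi.basisFun ℝ (Fin n)))) := inferInstance
    exact this
  have hsymm : ∀ x ∈ f ⁻¹' S, -x ∈ f ⁻¹' S := by
    intro x hx
    have e : ∑ i, |(B *ᵥ (-x)) i| < s := by
      rw [l1_symm]
      exact hx
    exact e
  have hS : Convex ℝ S := by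
    have := (l1_convex (n := n)).convex_lt s
    simpa [S] using this
  have hconv : Convex ℝ (f ⁻¹' S) := hS.linear_preimage f
  have hlt : volume (ZSpan.fundamentalDomain (Pi.basisFun ℝ (Fin n))) *
      2 ^ Module.finrank ℝ (Fin n → ℝ) < volume (f ⁻¹' S) := by
    rw [volume_fd, hpre, Module.finrank_fin_fun, one_mul]
    rw [show (2 : ℝ≥0∞) ^ n = ENNReal.ofReal (2 ^ n) by
      rw [ENNReal.ofReal_pow (by norm_num)]; simp]
    rw [ENNReal.ofReal_lt_ofReal_iff (by positivity)]
    have h5 : 1 < s ^ n / (|B.det| * n !) := by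
      rw [one_lt_div (by positivity)]
      exact h
    have h6 : (0 : ℝ) < 2 ^ n := by positivity
    nlinarith
  obtain ⟨x, hx0, hx⟩ := exists_ne_zero_mem_lattice_of_measure_mul_two_pow_lt_measure
    fund hsymm hconv hlt
  obtain ⟨y, hy⟩ := exists_toR_of_mem x.2
  refine ⟨y, ?_, ?_⟩
  · rintro rfl
    apply hx0
    apply Subtype.ext
    rw [← hy, toR_zero]
    rfl
  · rw [hy]
    exact hx

theorem mink_le [NeZero n] (B : Matrix (Fin n) (Fin n) ℝ) (hB : B.det ≠ 0) {s : ℝ} (hs : 0 < s)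
    (h : |B.det| * n ! ≤ s ^ n) :
    ∃ y : Fin n → ℤ, y ≠ 0 ∧ ∑ i, |(B *ᵥ toR y) i| ≤ s := by
  let S : Set (Fin n → ℝ) := {x | ∑ i, |x i| ≤ s}
  let f : (Fin n → ℝ) →ₗ[ℝ] (Fin n → ℝ) := Matrix.toLin' B
  have hdet : LinearMap.det f = B.det := LinearMap.det_toLin' B
  have h1 : 0 < |B.det| := abs_pos.2 hB
  have h2 : (0 : ℝ) < n ! := by exact_mod_cast Nat.factorial_pos n
  have hpre : volume (f ⁻¹' S) = ENNReal.ofReal (s ^ n / (|B.det| * n !) * 2 ^ n) := by
    rw [Measure.addHaar_preimage_linearMap volume (by rw [hdet]; exact hB), hdet]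
    have h3 : volume S = _ := volume_l1_le (n := n) s
    rw [h3, volume_aux B hB hs]
  have fund := ZSpan.isAddFundamentalDomain' (Pi.basisFun ℝ (Fin n))
    (volume : Measure (Fin n → ℝ))
  have hcount : Countable (Submodule.span ℤ (Set.range (Pi.basisFun ℝ (Fin n)))).toAddSubgroup := by
    have : Countable (Submodule.span ℤ (Set.range (Pi.basisFun ℝ (Fin n)))) := inferInstance
    exact this
  have hsymm : ∀ x ∈ f ⁻¹' S, -x ∈ f ⁻¹' S := by
    intro x hx
    have e : ∑ i, |(B *ᵥ (-x)) i| ≤ s := by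
      rw [l1_symm]
      exact hx
    exact e
  have hS : Convex ℝ S := by
    have := (l1_convex (n := n)).convex_le s
    simpa [S] using this
  have hconv : Convex ℝ (f ⁻¹' S) := hS.linear_preimage f
  have hScomp : IsCompact S := by
    refine Metric.isCompact_of_isClosed_isBounded ?_ ?_
    · have : Continuous fun x : Fin n → ℝ => ∑ i, |x i| := by fun_prop
      exact isClosed_le this continuous_const
    · refine (Metric.isBounded_closedBall (x := (0 : Fin n → ℝ)) (r := s)).subset ?_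
      intro x hx
      rw [mem_closedBall_zero_iff, pi_norm_le_iff_of_nonneg hs.le]
      intro i
      refine le_trans ?_ hx
      exact Finset.single_le_sum (f := fun i => |x i|) (fun j _ => abs_nonneg _)
        (Finset.mem_univ i)
  have hcomp : IsCompact (f ⁻¹' S) := by
    have e1 : f ⁻¹' S = (Matrix.toLin' B⁻¹) '' S := by
      have hu : IsUnit B.det := isUnit_iff_ne_zero.2 hB
      ext x
      constructor
      · intro hx
        refine ⟨f x, hx, ?_⟩
        simp only [f, Matrix.toLin'_apply]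
        rw [Matrix.mulVec_mulVec, Matrix.nonsing_inv_mul B hu, Matrix.one_mulVec]
      · rintro ⟨z, hz, rfl⟩
        have : f (Matrix.toLin' B⁻¹ z) = z := by
          simp only [f, Matrix.toLin'_apply]
          rw [Matrix.mulVec_mulVec, Matrix.mul_nonsing_inv B hu, Matrix.one_mulVec]
        rw [Set.mem_preimage, this]
        exact hz
    rw [e1]
    exact hScomp.image (LinearMap.continuous_of_finiteDimensional _)
  have hlt : volume (ZSpan.fundamentalDomain (Pi.basisFun ℝ (Fin n))) *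
      2 ^ Module.finrank ℝ (Fin n → ℝ) ≤ volume (f ⁻¹' S) := by
    rw [volume_fd, hpre, Module.finrank_fin_fun, one_mul]
    rw [show (2 : ℝ≥0∞) ^ n = ENNReal.ofReal (2 ^ n) by
      rw [ENNReal.ofReal_pow (by norm_num)]; simp]
    refine ENNReal.ofReal_le_ofReal ?_
    have h5 : 1 ≤ s ^ n / (|B.det| * n !) := by
      rw [one_le_div (by positivity)]
      exact h
    have h6 : (0 : ℝ) < 2 ^ n := by positivity
    nlinarith
  have : DiscreteTopology (Submodule.span ℤ
      (Set.range (Pi.basisFun ℝ (Fin n)))).toAddSubgroup := inferInstance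
  obtain ⟨x, hx0, hx⟩ := exists_ne_zero_mem_lattice_of_measure_mul_two_pow_le_measure
    fund hsymm hconv hcomp hlt
  obtain ⟨y, hy⟩ := exists_toR_of_mem x.2
  refine ⟨y, ?_, ?_⟩
  · rintro rfl
    apply hx0
    apply Subtype.ext
    rw [← hy, toR_zero]
    rfl
  · rw [hy]
    exact hx

end Helper31.Ewald
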