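import Pool.Agent.Helper31.Ewald.Mink

/-!
A short lattice vector in a symmetric convex body of lattice width at least two.
-/

namespace Helper31.Ewald

open Matrix Set MeasureTheory
open scoped ENNReal Nat

variable {n : ℕ}

/-- The hypotheses on the body. -/
structure Body (C : Set (Fin n → ℝ)) : Prop where
  compact : IsCompact C
  nhds0 : C ∈ nhds (0 : Fin n → ℝ)
  convex : Convex ℝ C
  symm : ∀ x ∈ C, -x ∈ C
  width : ∀ u : Fin n → ℤ, u ≠ 0 → ∃ x ∈ C, toR u ⬝ᵥ x = 1

theorem Body.zero_mem {C : Set (Fin n → ℝ)} (hC : Body C) : (0 : Fin n → ℝ) ∈ C :=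
  mem_of_mem_nhds hC.nhds0

theorem Body.smul_mem {C : Set (Fin n → ℝ)} (hC : Body C) {x : Fin n → ℝ} (hx : x ∈ C) {a : ℝ}
    (ha : |a| ≤ 1) : a • x ∈ C := by
  obtain ⟨h1, h2⟩ := abs_le.1 ha
  rcases le_or_gt 0 a with h | h
  · have := hC.convex hC.zero_mem hx (by linarith : 0 ≤ 1 - a) h (by ring)
    simpa using this
  · have := hC.convex hC.zero_mem (hC.symm x hx) (by linarith : 0 ≤ 1 + a)
      (by linarith : 0 ≤ -a) (by ring)
    simpa using this

/-- Combinations with coefficients of total absolute value at most one. -/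
theorem Body.sum_mem {C : Set (Fin n → ℝ)} (hC : Body C) {ι : Type*} (s : Finset ι)
    (a : ι → ℝ) (v : ι → Fin n → ℝ) (hv : ∀ i ∈ s, v i ∈ C) (ha : ∑ i ∈ s, |a i| ≤ 1) :
    ∑ i ∈ s, a i • v i ∈ C := by
  classical
  set T := ∑ i ∈ s, |a i| with hT
  have hT0 : 0 ≤ T := Finset.sum_nonneg fun _ _ => abs_nonneg _
  rcases hT0.eq_or_lt with h0 | hpos
  · have : ∀ i ∈ s, a i • v i = 0 := by
      intro i hi
      have h1 := (Finset.sum_eq_zero_iff_of_nonneg (fun j _ => abs_nonneg (a j))).1 h0.symm i hi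
      rw [abs_eq_zero.1 h1, zero_smul]
    rw [Finset.sum_eq_zero this]
    exact hC.zero_mem
  · have h1 : ∑ i ∈ s, (|a i| / T) • ((SignType.sign (a i) : ℝ) • v i) ∈ C := by
      refine hC.convex.sum_mem (fun i _ => by positivity) ?_ fun i hi => ?_
      · rw [← Finset.sum_div, ← hT, div_self hpos.ne']
      · refine hC.smul_mem (hv i hi) ?_
        rcases lt_trichotomy (a i) 0 with h | h | h
        · simp [sign_neg h]
        · simp [h]
        · simp [sign_pos h]
    have h2 : ∑ i ∈ s, a i • v i =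
        T • ∑ i ∈ s, (|a i| / T) • ((SignType.sign (a i) : ℝ) • v i) := by
      rw [Finset.smul_sum]
      refine Finset.sum_congr rfl fun i _ => ?_
      rw [smul_smul, smul_smul]
      congr 1
      rw [mul_div_cancel₀ _ hpos.ne', abs_mul_sign]
    rw [h2]
    exact hC.smul_mem h1 (by rw [abs_of_pos hpos]; exact ha)

/-- Auerbach's lemma (maximal determinants). -/
theorem Body.auerbach {C : Set (Fin n → ℝ)} (hC : Body C) :
    ∃ A : Matrix (Fin n) (Fin n) ℝ, (∀ i, A i ∈ C) ∧ A.det ≠ 0 ∧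
      ∀ x ∈ C, ∃ t : Fin n → ℝ, (∀ i, |t i| ≤ 1) ∧ x = t ᵥ* A := by
  let K : Set (Matrix (Fin n) (Fin n) ℝ) := Set.pi univ fun _ => C
  have hK : IsCompact K := isCompact_univ_pi fun _ => hC.compact
  have hdc : Continuous fun A : Matrix (Fin n) (Fin n) ℝ => |A.det| :=
    (continuous_id.matrix_det).abs
  have hne : K.Nonempty := ⟨fun _ => 0, fun _ _ => hC.zero_mem⟩
  obtain ⟨A, hA, hmax⟩ := hK.exists_isMaxOn hne hdc.continuousOn
  have hAC : ∀ i, A i ∈ C := fun i => hA i (mem_univ i)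
  -- the determinant is not zero
  have hdet : A.det ≠ 0 := by
    have hcont : Filter.Tendsto (fun t : ℝ => fun i : Fin n => t • (Pi.single i (1 : ℝ) : Fin n → ℝ))
        (nhdsWithin 0 (Set.Ioi 0)) (nhds (fun _ => 0)) := by
      have : Continuous fun t : ℝ => fun i : Fin n => t • (Pi.single i (1 : ℝ) : Fin n → ℝ) := by
        fun_prop
      have h := this.tendsto 0
      simp only [zero_smul] at h
      exact h.mono_left nhdsWithin_le_nhds
    have hmem : ∀ᶠ M in nhds (fun _ : Fin n => (0 : Fin n → ℝ)), ∀ i, M i ∈ C := by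
      rw [Filter.eventually_all]
      intro i
      exact (continuous_apply i).continuousAt.eventually hC.nhds0
    obtain ⟨t, ht, ht0⟩ := ((hcont.eventually hmem).and self_mem_nhdsWithin).exists
    have ht0' : 0 < t := ht0
    have h1 := hmax (show (fun i : Fin n => t • (Pi.single i (1 : ℝ) : Fin n → ℝ)) ∈ K from
      fun i _ => ht i)
    have h2 : (Matrix.det fun i : Fin n => t • (Pi.single i (1 : ℝ) : Fin n → ℝ)) = t ^ n := by
      have : (fun i : Fin n => t • (Pi.single i (1 : ℝ) : Fin n → ℝ)) =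
          (t • (1 : Matrix (Fin n) (Fin n) ℝ)) := by
        funext i j
        simp [Matrix.one_apply, Pi.single_apply, eq_comm]
      rw [this, Matrix.det_smul, Matrix.det_one, Fintype.card_fin, mul_one]
    simp only [mem_setOf_eq] at h1
    rw [h2] at h1
    intro h0
    rw [h0, abs_zero] at h1
    have h3 : 0 < |t ^ n| := abs_pos.2 (pow_pos ht0' n).ne'
    linarith
  refine ⟨A, hAC, hdet, fun x hx => ?_⟩
  refine ⟨fun i => (A.updateRow i x).det / A.det, fun i => ?_, ?_⟩
  · rw [abs_div, div_le_one (abs_pos.2 hdet)]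
    refine hmax (show A.updateRow i x ∈ K from fun j _ => ?_)
    by_cases hj : j = i
    · subst hj
      rw [Matrix.updateRow_self]
      exact hx
    · rw [Matrix.updateRow_ne hj]
      exact hAC j
  · have h1 := Matrix.mulVec_cramer Aᵀ x
    rw [Matrix.det_transpose, Matrix.mulVec_transpose] at h1
    have h2 : (fun i => (A.updateRow i x).det / A.det) = (A.det)⁻¹ • cramer Aᵀ x := by
      funext i
      rw [Pi.smul_apply, Matrix.cramer_transpose_apply, smul_eq_mul]
      ring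
    rw [h2, Matrix.smul_vecMul, h1, smul_smul, inv_mul_cancel₀ hdet, one_smul]

theorem fact_bound (n : ℕ) : ((n ! : ℕ) : ℝ) * n ! ≤ (((n : ℝ) + 1) ^ 2 / 4) ^ n := by
  have h1 : ((n ! : ℕ) : ℝ) = ∏ i ∈ Finset.range n, ((i : ℝ) + 1) := by
    rw [← Finset.prod_range_add_one_eq_factorial]
    push_cast
    rfl
  have h2 : ((n ! : ℕ) : ℝ) = ∏ i ∈ Finset.range n, ((n : ℝ) - i) := by
    rw [h1, ← Finset.prod_range_reflect]
    refine Finset.prod_congr rfl fun i hi => ?_
    have hi' := Finset.mem_range.1 hi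
    have : ((n - 1 - i : ℕ) : ℝ) = (n : ℝ) - 1 - i := by
      rw [Nat.cast_sub (by omega), Nat.cast_sub (by omega)]
      simp
    rw [this]
    ring
  calc ((n ! : ℕ) : ℝ) * n ! = ∏ i ∈ Finset.range n, (((i : ℝ) + 1) * ((n : ℝ) - i)) := by
        rw [Finset.prod_mul_distrib, ← h1, ← h2]
    _ ≤ ∏ _i ∈ Finset.range n, (((n : ℝ) + 1) ^ 2 / 4) := by
        refine Finset.prod_le_prod (fun i hi => ?_) fun i hi => ?_
        · have hi' : (i : ℝ) < n := by exact_mod_cast Finset.mem_range.1 hi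
          have : (0 : ℝ) ≤ i := Nat.cast_nonneg i
          nlinarith
        · nlinarith [sq_nonneg (((i : ℝ) + 1) - ((n : ℝ) - i))]
    _ = _ := by rw [Finset.prod_const, Finset.card_range]

/-- A nonzero lattice vector in `((n + 1)² / 4) C`. -/
theorem Body.short_vector [NeZero n] {C : Set (Fin n → ℝ)} (hC : Body C) :
    ∃ z : Fin n → ℤ, z ≠ 0 ∧ ∃ x ∈ C, toR z = (((n : ℝ) + 1) ^ 2 / 4) • x := by
  obtain ⟨A, hAC, hdet, hA⟩ := hC.auerbach
  set s : ℝ := ((n : ℝ) + 1) ^ 2 / 4 with hs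
  have hs0 : 0 < s := by positivity
  have hpos : 0 < |A.det| := abs_pos.2 hdet
  have hfact : (0 : ℝ) < n ! := by exact_mod_cast Nat.factorial_pos n
  -- lower bound for the determinant
  have hlow : 1 ≤ |A.det| * n ! := by
    by_contra hcon
    push Not at hcon
    obtain ⟨u, hu0, hu⟩ := mink_lt A hdet one_pos (by rw [one_pow]; exact hcon)
    obtain ⟨x, hx, hux⟩ := hC.width u hu0
    obtain ⟨t, ht, rfl⟩ := hA x hx
    have h1 : toR u ⬝ᵥ (t ᵥ* A) = ∑ i, t i * (A *ᵥ toR u) i := by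
      rw [dotProduct_comm, ← Matrix.dotProduct_mulVec]
      rfl
    rw [h1] at hux
    have h2 : (1 : ℝ) ≤ ∑ i, |(A *ᵥ toR u) i| := by
      calc (1 : ℝ) = ∑ i, t i * (A *ᵥ toR u) i := hux.symm
        _ ≤ ∑ i, |(A *ᵥ toR u) i| := by
          refine Finset.sum_le_sum fun i _ => ?_
          calc t i * (A *ᵥ toR u) i ≤ |t i * (A *ᵥ toR u) i| := le_abs_self _
            _ = |t i| * |(A *ᵥ toR u) i| := abs_mul _ _
            _ ≤ 1 * |(A *ᵥ toR u) i| := mul_le_mul_of_nonneg_right (ht i) (abs_nonneg _)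
            _ = _ := one_mul _
    linarith
  -- the second application
  set B : Matrix (Fin n) (Fin n) ℝ := (A⁻¹)ᵀ with hB
  have hu : IsUnit A.det := isUnit_iff_ne_zero.2 hdet
  have hBdet : B.det = (A.det)⁻¹ := by
    rw [hB, Matrix.det_transpose, Matrix.det_nonsing_inv, Ring.inverse_eq_inv']
  have hBne : B.det ≠ 0 := by rw [hBdet]; exact inv_ne_zero hdet
  have hcond : |B.det| * n ! ≤ s ^ n := by
    rw [hBdet, abs_inv]
    calc |A.det|⁻¹ * n ! ≤ (n ! : ℝ) * n ! := by
          refine mul_le_mul_of_nonneg_right ?_ hfact.le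
          rw [inv_le_iff_one_le_mul₀ hpos, mul_comm]
          exact hlow
      _ ≤ s ^ n := fact_bound n
  obtain ⟨z, hz0, hz⟩ := mink_le B hBne hs0 hcond
  refine ⟨z, hz0, ∑ i, ((B *ᵥ toR z) i / s) • A i, ?_, ?_⟩
  · refine hC.sum_mem _ _ _ (fun i _ => hAC i) ?_
    simp only [abs_div, abs_of_pos hs0]
    rw [← Finset.sum_div, div_le_one hs0]
    exact hz
  · rw [Finset.smul_sum]
    have h3 : ∀ i, s • (((B *ᵥ toR z) i / s) • A i) = (B *ᵥ toR z) i • A i := by
      intro i
      rw [smul_smul, mul_div_cancel₀ _ hs0.ne']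
    simp only [h3]
    have h4 : (B *ᵥ toR z) ᵥ* A = toR z := by
      rw [hB, Matrix.mulVec_transpose, Matrix.vecMul_vecMul, Matrix.nonsing_inv_mul A hu,
        Matrix.vecMul_one]
    conv_lhs => rw [← h4]
    funext j
    simp [Matrix.vecMul, dotProduct, Finset.sum_apply]

end Helper31.Ewald
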