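import Pool.Agent.Helper31.Ewald.Defs

/-!
The intersection `P ∩ -P` of a smooth lattice polytope with `0` in its interior has lattice width
at least two.
-/

namespace Helper31.Ewald

open Matrix Set

variable {n : ℕ}

theorem toR_zero : toR (0 : Fin n → ℤ) = 0 := by
  funext i; simp [toR]

theorem toR_add (a b : Fin n → ℤ) : toR (a + b) = toR a + toR b := by
  funext i; simp [toR]

theorem toR_neg (a : Fin n → ℤ) : toR (-a) = -toR a := by
  funext i; simp [toR]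

theorem toR_sub (a b : Fin n → ℤ) : toR (a - b) = toR a - toR b := by
  funext i; simp [toR]

theorem toR_smul (k : ℤ) (a : Fin n → ℤ) : toR (k • a) = (k : ℝ) • toR a := by
  funext i; simp [toR]

theorem toR_dot (a b : Fin n → ℤ) : toR a ⬝ᵥ toR b = ((a ⬝ᵥ b : ℤ) : ℝ) := by
  simp [dotProduct, toR]

theorem toR_injective : Function.Injective (toR : (Fin n → ℤ) → Fin n → ℝ) := by
  intro a b h
  funext i
  have := congrFun h i
  simpa [toR] using this

theorem continuous_dot (A : Fin n → ℝ) : Continuous fun x : Fin n → ℝ => A ⬝ᵥ x := by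
  unfold dotProduct
  fun_prop

variable {P : Set (Fin n → ℝ)}

theorem IsSmoothPolytope.isCompact (hP : IsSmoothPolytope P) : IsCompact P := by
  obtain ⟨V, rfl⟩ := hP.lattice
  exact ((V.finite_toSet).image _).isCompact_convexHull ℝ

theorem IsSmoothPolytope.convex (hP : IsSmoothPolytope P) : Convex ℝ P := by
  obtain ⟨V, rfl⟩ := hP.lattice
  exact convex_convexHull ℝ _

theorem IsSmoothPolytope.exists_toR (hP : IsSmoothPolytope P) {v : Fin n → ℝ}
    (hv : v ∈ P.extremePoints ℝ) : ∃ w : Fin n → ℤ, toR w = v := by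
  obtain ⟨V, rfl⟩ := hP.lattice
  obtain ⟨w, _, hw⟩ := extremePoints_convexHull_subset hv
  exact ⟨w, hw⟩

/-- A linear functional attains its minimum over `P` at a vertex. -/
theorem IsSmoothPolytope.exists_vertex (hP : IsSmoothPolytope P) (hne : P.Nonempty)
    (p : Fin n → ℤ) :
    ∃ w : Fin n → ℤ, toR w ∈ P.extremePoints ℝ ∧
      ∀ x ∈ P, ((p ⬝ᵥ w : ℤ) : ℝ) ≤ toR p ⬝ᵥ x := by
  let l : StrongDual ℝ (Fin n → ℝ) :=
    { toFun := fun x => -(toR p ⬝ᵥ x)
      map_add' := by intro x y; rw [dotProduct_add]; ring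
      map_smul' := by intro c x; rw [dotProduct_smul]; simp
      cont := (continuous_dot (toR p)).neg }
  have hl : ∀ x, l x = -(toR p ⬝ᵥ x) := fun x => rfl
  have hexp : IsExposed ℝ P (l.toExposed P) := ContinuousLinearMap.toExposed.isExposed
  have hcomp : IsCompact (l.toExposed P) := hexp.isCompact hP.isCompact
  have hnee : (l.toExposed P).Nonempty := by
    obtain ⟨x, hx, hx'⟩ := hP.isCompact.exists_isMaxOn hne l.continuous.continuousOn
    exact ⟨x, hx, fun y hy => hx' hy⟩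
  obtain ⟨v, hv⟩ := hcomp.extremePoints_nonempty hnee
  have hv1 := hexp.isExtreme.extremePoints_subset_extremePoints hv
  obtain ⟨w, rfl⟩ := hP.exists_toR hv1
  refine ⟨w, hv1, fun x hx => ?_⟩
  have h1 := hv.1.2 x hx
  rw [hl, hl, toR_dot] at h1
  linarith

/-- If `0` is an interior point, then a nonzero functional takes negative values on `P`. -/
theorem exists_neg (h0 : (0 : Fin n → ℝ) ∈ interior P) {p : Fin n → ℤ} (hp : p ≠ 0) :
    ∃ x ∈ P, toR p ⬝ᵥ x < 0 := by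
  have hnhds : P ∈ nhds (0 : Fin n → ℝ) := mem_interior_iff_mem_nhds.1 h0
  have hcont : Filter.Tendsto (fun t : ℝ => -(t • toR p)) (nhdsWithin 0 (Set.Ioi 0))
      (nhds (0 : Fin n → ℝ)) := by
    have : Continuous fun t : ℝ => -(t • toR p) := by fun_prop
    have h := this.tendsto 0
    simp only [zero_smul, neg_zero] at h
    exact h.mono_left nhdsWithin_le_nhds
  obtain ⟨t, ht, ht0⟩ := ((hcont.eventually hnhds).and self_mem_nhdsWithin).exists
  refine ⟨_, ht, ?_⟩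
  rw [dotProduct_neg, dotProduct_smul, toR_dot]
  have h1 : 0 < p ⬝ᵥ p := by
    have hnn : 0 ≤ p ⬝ᵥ p := Finset.sum_nonneg fun i _ => mul_self_nonneg _
    rcases hnn.lt_or_eq with h | h
    · exact h
    · exact absurd (dotProduct_self_eq_zero.1 h.symm) hp
  have h2 : (0 : ℝ) < ((p ⬝ᵥ p : ℤ) : ℝ) := by exact_mod_cast h1
  have h3 : 0 < t * ((p ⬝ᵥ p : ℤ) : ℝ) := mul_pos ht0 h2
  simpa using h3

/-- The data of minimising vertices. -/
structure MinVert (P : Set (Fin n → ℝ)) (w : (Fin n → ℤ) → (Fin n → ℤ)) : Prop where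
  ext : ∀ p, toR (w p) ∈ P.extremePoints ℝ
  le : ∀ p, ∀ x ∈ P, ((p ⬝ᵥ w p : ℤ) : ℝ) ≤ toR p ⬝ᵥ x

theorem IsSmoothPolytope.exists_minVert (hP : IsSmoothPolytope P) (hne : P.Nonempty) :
    ∃ w, MinVert P w := by
  choose w hw1 hw2 using hP.exists_vertex hne
  exact ⟨w, hw1, hw2⟩

variable {w : (Fin n → ℤ) → (Fin n → ℤ)}

theorem MinVert.mem (hw : MinVert P w) (p : Fin n → ℤ) : toR (w p) ∈ P := (hw.ext p).1

theorem MinVert.le_int (hw : MinVert P w) (p q : Fin n → ℤ) : p ⬝ᵥ w p ≤ p ⬝ᵥ w q := by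
  have h := hw.le p _ (hw.mem q)
  rw [toR_dot] at h
  exact_mod_cast h

theorem MinVert.le_neg_one (hw : MinVert P w) (h0 : (0 : Fin n → ℝ) ∈ interior P)
    {p : Fin n → ℤ} (hp : p ≠ 0) : p ⬝ᵥ w p ≤ -1 := by
  obtain ⟨x, hx, hx'⟩ := exists_neg h0 hp
  have h := (hw.le p x hx).trans_lt hx'
  have h1 : p ⬝ᵥ w p < 0 := by exact_mod_cast h
  omega

theorem MinVert.le_zero (hw : MinVert P w) (h0 : (0 : Fin n → ℝ) ∈ interior P)
    (p : Fin n → ℤ) : p ⬝ᵥ w p ≤ 0 := by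
  have h := hw.le p 0 (interior_subset h0)
  rw [dotProduct_zero] at h
  exact_mod_cast h

/-- The heart of the argument: a vertex minimising both `p` and `p + (k + 1) u`, with
`⟨u, v⟩ = 0`. -/
theorem vertex_bound (hP : IsSmoothPolytope P) (h0 : (0 : Fin n → ℝ) ∈ interior P)
    (hw : MinVert P w) {v : Fin n → ℤ} (hv : toR v ∈ P.extremePoints ℝ) {u : Fin n → ℤ}
    (hu : u ≠ 0) (huv : u ⬝ᵥ v = 0) (p : Fin n → ℤ) (k : ℕ)
    (hp : ∀ x ∈ P, ((p ⬝ᵥ v : ℤ) : ℝ) ≤ toR p ⬝ᵥ x)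
    (hq : ∀ x ∈ P, (((p + (k : ℤ) • u) ⬝ᵥ v : ℤ) : ℝ) ≤ toR (p + (k : ℤ) • u) ⬝ᵥ x) :
    p ⬝ᵥ v ≤ -(k : ℤ) := by
  obtain ⟨e, hdet, hedge, hcone⟩ := hP.smooth _ hv
  -- the dual basis
  set M : Matrix (Fin n) (Fin n) ℤ := Matrix.of e with hM
  have hMM : M * M⁻¹ = 1 := Matrix.mul_nonsing_inv M hdet
  have hMM' : M⁻¹ * M = 1 := Matrix.nonsing_inv_mul M hdet
  let f : Fin n → Fin n → ℤ := fun j i => M⁻¹ i j
  have hfe : ∀ j i, f j ⬝ᵥ e i = if i = j then 1 else 0 := by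
    intro j i
    have h := congrFun (congrFun hMM i) j
    rw [Matrix.mul_apply, Matrix.one_apply] at h
    rw [← h]
    simp only [dotProduct, f, hM, Matrix.of_apply]
    exact Finset.sum_congr rfl fun x _ => mul_comm _ _
  -- edge directions
  have hpos : ∀ q : Fin n → ℤ, (∀ x ∈ P, ((q ⬝ᵥ v : ℤ) : ℝ) ≤ toR q ⬝ᵥ x) →
      ∀ j, 0 ≤ q ⬝ᵥ e j := by
    intro q hq j
    obtain ⟨t, ht, htP⟩ := hedge j
    have h := hq _ htP
    rw [dotProduct_add, dotProduct_smul, toR_dot, toR_dot, smul_eq_mul] at h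
    have h1 : 0 ≤ t * ((q ⬝ᵥ e j : ℤ) : ℝ) := by linarith
    have h2 : 0 ≤ ((q ⬝ᵥ e j : ℤ) : ℝ) := nonneg_of_mul_nonneg_right h1 ht
    exact_mod_cast h2
  -- the coefficients of `-v`
  have hc : ∀ j, f j ⬝ᵥ v ≤ -1 := by
    intro j
    have hfj : f j ≠ 0 := by
      intro h
      have := hfe j j
      rw [h, zero_dotProduct] at this
      simp at this
    have h1 := hw.le_neg_one h0 hfj
    obtain ⟨c, hc0, hc⟩ := hcone _ (hw.mem (f j))
    have h2 : toR (f j) ⬝ᵥ toR (w (f j)) = toR (f j) ⬝ᵥ toR v + c j := by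
      rw [hc, dotProduct_add, dotProduct_sum]
      congr 1
      have : ∀ i, toR (f j) ⬝ᵥ (c i • toR (e i)) = if i = j then c i else 0 := by
        intro i
        rw [dotProduct_smul, toR_dot, hfe]
        split_ifs <;> simp
      simp only [this]
      simp
    rw [toR_dot, toR_dot] at h2
    have h3 : ((f j ⬝ᵥ v : ℤ) : ℝ) ≤ ((f j ⬝ᵥ w (f j) : ℤ) : ℝ) := by
      rw [h2]; linarith [hc0 j]
    have h4 : f j ⬝ᵥ v ≤ f j ⬝ᵥ w (f j) := by exact_mod_cast h3
    omega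
  -- expansion of `v` in the basis `e`
  have hexp : ∀ q : Fin n → ℤ, q ⬝ᵥ v = ∑ j, (f j ⬝ᵥ v) * (q ⬝ᵥ e j) := by
    intro q
    have hv' : v = ∑ j, (f j ⬝ᵥ v) • e j := by
      have h : (v ᵥ* M⁻¹) ᵥ* M = v := by
        rw [Matrix.vecMul_vecMul, hMM', Matrix.vecMul_one]
      funext b
      have hb := congrFun h b
      rw [← hb, Finset.sum_apply]
      simp only [Pi.smul_apply, smul_eq_mul, Matrix.vecMul, dotProduct]
      refine Finset.sum_congr rfl fun j _ => ?_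
      simp only [hM, Matrix.of_apply, f]
      congr 1
      exact Finset.sum_congr rfl fun x _ => mul_comm _ _
    conv_lhs => rw [hv']
    rw [dotProduct_sum]
    exact Finset.sum_congr rfl fun j _ => by rw [dotProduct_smul, smul_eq_mul]
  -- some edge direction is negative on `u`
  obtain ⟨i, hi⟩ : ∃ i, u ⬝ᵥ e i ≤ -1 := by
    by_contra hcon
    push Not at hcon
    have hnn : ∀ j, 0 ≤ u ⬝ᵥ e j := fun j => by have := hcon j; omega
    have h1 := hexp u
    rw [huv] at h1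
    have h2 : ∀ j ∈ Finset.univ, (f j ⬝ᵥ v) * (u ⬝ᵥ e j) ≤ 0 := fun j _ =>
      mul_nonpos_of_nonpos_of_nonneg (by have := hc j; omega) (hnn j)
    have h3 := (Finset.sum_eq_zero_iff_of_nonpos h2).1 h1.symm
    have h4 : ∀ j, u ⬝ᵥ e j = 0 := fun j => by
      rcases mul_eq_zero.1 (h3 j (Finset.mem_univ j)) with h | h
      · have := hc j; omega
      · exact h
    apply hu
    have h5 : M *ᵥ u = 0 := by
      funext j
      have h6 := h4 j
      rw [dotProduct_comm] at h6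
      exact h6
    have h7 : M⁻¹ *ᵥ (M *ᵥ u) = u := by
      rw [Matrix.mulVec_mulVec, hMM', Matrix.one_mulVec]
    rw [← h7, h5, Matrix.mulVec_zero]
  have hqi := hpos _ hq i
  have hpi : (k : ℤ) ≤ p ⬝ᵥ e i := by
    rw [add_dotProduct, smul_dotProduct, smul_eq_mul] at hqi
    nlinarith
  have hpj := hpos p hp
  rw [hexp p]
  have h6 : ∑ j, (f j ⬝ᵥ v) * (p ⬝ᵥ e j) ≤ (f i ⬝ᵥ v) * (p ⬝ᵥ e i) := by
    rw [← Finset.add_sum_erase _ _ (Finset.mem_univ i)]
    have : ∑ j ∈ Finset.univ.erase i, (f j ⬝ᵥ v) * (p ⬝ᵥ e j) ≤ 0 :=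
      Finset.sum_nonpos fun j _ =>
        mul_nonpos_of_nonpos_of_nonneg (by have := hc j; omega) (hpj j)
    linarith
  have h7 : (f i ⬝ᵥ v) * (p ⬝ᵥ e i) ≤ (-1) * (p ⬝ᵥ e i) :=
    mul_le_mul_of_nonneg_right (hc i) (hpj i)
  linarith

/-- The key inequality: `h(p) + h(p + k u) ≥ k` for the support function
`h(p) = max_{x ∈ P} -⟨p, x⟩`. -/
theorem key (hP : IsSmoothPolytope P) (h0 : (0 : Fin n → ℝ) ∈ interior P)
    (hw : MinVert P w) {u : Fin n → ℤ} (hu : u ≠ 0) (k : ℕ) (p : Fin n → ℤ) :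
    p ⬝ᵥ w p + (p + (k : ℤ) • u) ⬝ᵥ w (p + (k : ℤ) • u) ≤ -(k : ℤ) := by
  induction k generalizing p with
  | zero =>
    have h1 := hw.le_zero h0 p
    have h2 := hw.le_zero h0 (p + ((0 : ℕ) : ℤ) • u)
    simp only [Nat.cast_zero, neg_zero]
    simp only [Nat.cast_zero] at h2
    linarith
  | succ k ih =>
    set q := p + ((k + 1 : ℕ) : ℤ) • u with hq
    have hq1 : (p + u) + (k : ℤ) • u = q := by
      rw [hq]; push_cast; rw [add_smul, one_smul]; abel
    have hq2 : (p + (k : ℤ) • u) + u = q := by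
      rw [hq]; push_cast; rw [add_smul, one_smul]; abel
    -- first reduction
    have ih1 := ih (p + u)
    rw [hq1] at ih1
    have ih2 := ih p
    by_cases hA : p ⬝ᵥ w p + 1 ≤ (p + u) ⬝ᵥ w (p + u)
    · push_cast
      linarith
    by_cases hB : q ⬝ᵥ w q + 1 ≤ (p + (k : ℤ) • u) ⬝ᵥ w (p + (k : ℤ) • u)
    · push_cast
      linarith
    push Not at hA hB
    have hA' : (p + u) ⬝ᵥ w (p + u) ≤ p ⬝ᵥ w p := by omega
    have hB' : (p + (k : ℤ) • u) ⬝ᵥ w (p + (k : ℤ) • u) ≤ q ⬝ᵥ w q := by omega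
    -- notation for the vertices
    set a := w (p + u) with ha
    set b := w (p + (k : ℤ) • u) with hb
    have pa := hw.le_int p (p + u)
    have qa := hw.le_int q (p + u)
    have pb := hw.le_int p (p + (k : ℤ) • u)
    have qb := hw.le_int q (p + (k : ℤ) • u)
    rw [← ha] at pa qa
    rw [← hb] at pb qb
    have e1 : q ⬝ᵥ a = p ⬝ᵥ a + ((k : ℤ) + 1) * (u ⬝ᵥ a) := by
      rw [hq, add_dotProduct, smul_dotProduct, smul_eq_mul]; push_cast; ring
    have e2 : q ⬝ᵥ b = p ⬝ᵥ b + ((k : ℤ) + 1) * (u ⬝ᵥ b) := by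
      rw [hq, add_dotProduct, smul_dotProduct, smul_eq_mul]; push_cast; ring
    have e3 : (p + u) ⬝ᵥ a = p ⬝ᵥ a + u ⬝ᵥ a := add_dotProduct _ _ _
    have e4 : (p + (k : ℤ) • u) ⬝ᵥ b = p ⬝ᵥ b + (k : ℤ) * (u ⬝ᵥ b) := by
      rw [add_dotProduct, smul_dotProduct, smul_eq_mul]
    rw [e1] at qa
    rw [e2] at qb
    rw [e3] at hA'
    rw [e4] at hB'
    have hk : (0 : ℤ) ≤ k := Int.natCast_nonneg k
    -- `m(p) = m(q)`
    have hpq : p ⬝ᵥ w p ≤ q ⬝ᵥ w q := by nlinarith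
    have hqp : q ⬝ᵥ w q ≤ p ⬝ᵥ w p := by nlinarith
    have heq : p ⬝ᵥ w p = q ⬝ᵥ w q := le_antisymm hpq hqp
    have hua1 : u ⬝ᵥ a ≤ 0 := by linarith
    rcases Nat.eq_zero_or_pos k with hk0 | hkpos
    · -- one of `p`, `q` is nonzero
      subst hk0
      have hne : p ≠ 0 ∨ q ≠ 0 := by
        by_contra hcon
        push Not at hcon
        obtain ⟨h1, h2⟩ := hcon
        rw [← hq1, h1] at h2
        apply hu
        simpa using h2
      push_cast
      rcases hne with h | h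
      · have := hw.le_neg_one h0 h
        linarith
      · have := hw.le_neg_one h0 h
        linarith
    · have hk1 : (1 : ℤ) ≤ k := by exact_mod_cast hkpos
      have hua : u ⬝ᵥ a = 0 := by nlinarith
      have hpa : p ⬝ᵥ a = p ⬝ᵥ w p := by
        rw [hua] at hA'
        linarith
      have hqa : q ⬝ᵥ a = q ⬝ᵥ w q := by
        rw [e1, hua, hpa, heq]; ring
      have hfin := vertex_bound hP h0 hw (hw.ext (p + u)) hu hua p (k + 1)
        (by rw [← ha, hpa]; exact hw.le p) (by rw [← ha, ← hq, hqa]; exact hw.le q)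
      rw [← ha, hpa] at hfin
      push_cast at hfin ⊢
      linarith

/-- `P ∩ -P` has width at least two in every nonzero integer direction. -/
theorem width (hP : IsSmoothPolytope P) (h0 : (0 : Fin n → ℝ) ∈ interior P)
    {u : Fin n → ℤ} (hu : u ≠ 0) : ∃ x ∈ P, -x ∈ P ∧ toR u ⬝ᵥ x = 1 := by
  by_contra hcon
  push Not at hcon
  have h0P : (0 : Fin n → ℝ) ∈ P := interior_subset h0
  obtain ⟨w, hw⟩ := hP.exists_minVert ⟨0, h0P⟩
  -- the compact convex set of pairs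
  let g : (Fin n → ℝ) × (Fin n → ℝ) → (Fin n → ℝ) × ℝ := fun z => (z.1 + z.2, toR u ⬝ᵥ z.1)
  have hg : IsLinearMap ℝ g :=
    { map_add := by
        intro a b
        simp only [g, Prod.fst_add, Prod.snd_add, dotProduct_add, Prod.mk_add_mk, Prod.mk.injEq,
          and_true]
        abel
      map_smul := by
        intro c a
        simp [g, dotProduct_smul] }
  have hgc : Continuous g := by
    have h1 : Continuous fun z : (Fin n → ℝ) × (Fin n → ℝ) => toR u ⬝ᵥ z.1 :=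
      (continuous_dot (toR u)).comp continuous_fst
    exact (continuous_fst.add continuous_snd).prodMk h1
  have hKc : IsCompact (g '' (P ×ˢ P)) := (hP.isCompact.prod hP.isCompact).image hgc
  have hKconv : Convex ℝ (g '' (P ×ˢ P)) := (hP.convex.prod hP.convex).is_linear_image hg
  have hnot : ((0, 1) : (Fin n → ℝ) × ℝ) ∉ g '' (P ×ˢ P) := by
    rintro ⟨⟨x, y⟩, ⟨hx, hy⟩, hxy⟩
    simp only [g, Prod.mk.injEq] at hxy
    obtain ⟨h1, h2⟩ := hxy
    have h3 : y = -x := (neg_eq_of_add_eq_zero_right h1).symm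
    exact hcon x hx (h3 ▸ hy) h2
  obtain ⟨F, s, hs1, hs2⟩ := geometric_hahn_banach_point_closed hKconv hKc.isClosed hnot
  set μ : ℝ := F (0, 1) with hμ
  let A : Fin n → ℝ := fun i => F (Pi.single i 1, 0)
  have hF : ∀ (x : Fin n → ℝ) (t : ℝ), F (x, t) = A ⬝ᵥ x + μ * t := by
    intro x t
    have h1 : ((x, t) : (Fin n → ℝ) × ℝ)
        = ∑ i, x i • ((Pi.single i (1 : ℝ), 0) : (Fin n → ℝ) × ℝ) + t • ((0, 1) : (Fin n → ℝ) × ℝ) := by
      ext i
      · simp [Prod.fst_sum, Finset.sum_apply, Pi.single_apply]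
      · simp [Prod.snd_sum]
    rw [h1, map_add, map_sum, map_smul]
    simp only [map_smul, smul_eq_mul, dotProduct, A]
    rw [← hμ, mul_comm t μ]
    congr 1
    exact Finset.sum_congr rfl fun i _ => mul_comm _ _
  have hsep : ∀ x ∈ P, ∀ y ∈ P, s < A ⬝ᵥ x + A ⬝ᵥ y + μ * (toR u ⬝ᵥ x) := by
    intro x hx y hy
    have h1 := hs2 (g (x, y)) ⟨(x, y), ⟨hx, hy⟩, rfl⟩
    simp only [g] at h1
    rw [hF, dotProduct_add] at h1
    exact h1
  have hs0 : s < 0 := by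
    have h1 := hsep 0 h0P 0 h0P
    simpa using h1
  have hμ0 : μ < 0 := hs1.trans hs0
  set ν : ℝ := -μ with hν
  have hν0 : 0 < ν := by linarith
  have hμν : μ = -ν := by rw [hν, neg_neg]
  have hνne : ν ≠ 0 := hν0.ne'
  set δ : ℝ := (s - μ) / ν with hδ
  have hδ0 : 0 < δ := div_pos (by linarith) hν0
  set B : Fin n → ℝ := fun i => A i / ν with hB
  have hBdot : ∀ x, B ⬝ᵥ x = (A ⬝ᵥ x) / ν := by
    intro x
    simp only [dotProduct, hB, Finset.sum_div]
    exact Finset.sum_congr rfl fun i _ => by ring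
  have hsep2 : ∀ x ∈ P, ∀ y ∈ P, -1 + δ ≤ B ⬝ᵥ x - toR u ⬝ᵥ x + B ⬝ᵥ y := by
    intro x hx y hy
    have h1 := (hsep x hx y hy).le
    rw [hBdot, hBdot]
    have h2 : -1 + δ = s / ν := by
      rw [hδ, hμν]; field_simp; ring
    rw [h2, div_le_iff₀ hν0]
    have h3 : (A ⬝ᵥ x / ν - toR u ⬝ᵥ x + A ⬝ᵥ y / ν) * ν
        = A ⬝ᵥ x + A ⬝ᵥ y + μ * (toR u ⬝ᵥ x) := by
      rw [hμν]
      field_simp
      ring
    rw [h3]
    exact h1
  -- a bound for the points of `P`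
  obtain ⟨R, hR⟩ : ∃ R : ℝ, ∀ x ∈ P, ∑ i, |x i| ≤ R := by
    have hc : Continuous fun x : Fin n → ℝ => ∑ i, |x i| := by fun_prop
    obtain ⟨R, hR⟩ := (hP.isCompact.image hc).bddAbove
    exact ⟨R, fun x hx => hR ⟨x, hx, rfl⟩⟩
  obtain ⟨k, hk⟩ := exists_nat_gt (2 * R / δ)
  let r : Fin n → ℤ := fun i => round ((k : ℝ) * B i)
  have hr : ∀ i, |(k : ℝ) * B i - (r i : ℝ)| ≤ 1 := fun i =>
    (abs_sub_round _).trans (by norm_num)
  have hkey := key hP h0 hw hu k (r - (k : ℤ) • u)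
  rw [sub_add_cancel] at hkey
  have hx := hw.mem (r - (k : ℤ) • u)
  have hy := hw.mem r
  set x := toR (w (r - (k : ℤ) • u)) with hxdef
  set y := toR (w r) with hydef
  have hdotx : toR (r - (k : ℤ) • u) ⬝ᵥ x + toR r ⬝ᵥ y ≤ -(k : ℝ) := by
    rw [hxdef, hydef, toR_dot, toR_dot]
    exact_mod_cast hkey
  have hclose : ∀ z ∈ P, (k : ℝ) * (B ⬝ᵥ z) - R ≤ toR r ⬝ᵥ z := by
    intro z hz
    have h1 : (k : ℝ) * (B ⬝ᵥ z) - toR r ⬝ᵥ z = ∑ i, ((k : ℝ) * B i - (r i : ℝ)) * z i := by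
      simp only [dotProduct, toR, Finset.mul_sum]
      rw [← Finset.sum_sub_distrib]
      exact Finset.sum_congr rfl fun i _ => by ring
    have h2 : ∑ i, ((k : ℝ) * B i - (r i : ℝ)) * z i ≤ ∑ i, |z i| := by
      refine Finset.sum_le_sum fun i _ => ?_
      calc ((k : ℝ) * B i - (r i : ℝ)) * z i ≤ |((k : ℝ) * B i - (r i : ℝ)) * z i| := le_abs_self _
        _ = |(k : ℝ) * B i - (r i : ℝ)| * |z i| := abs_mul _ _
        _ ≤ 1 * |z i| := mul_le_mul_of_nonneg_right (hr i) (abs_nonneg _)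
        _ = |z i| := one_mul _
    have h3 := hR z hz
    linarith
  have h1 := hclose x hx
  have h2 := hclose y hy
  have h3 := hsep2 x hx y hy
  rw [toR_sub, toR_smul, sub_dotProduct, smul_dotProduct, smul_eq_mul] at hdotx
  push_cast at hdotx
  have hk0 : (0 : ℝ) ≤ k := Nat.cast_nonneg k
  have h4 : (k : ℝ) * (-1 + δ) ≤ (k : ℝ) * (B ⬝ᵥ x - toR u ⬝ᵥ x + B ⬝ᵥ y) :=
    mul_le_mul_of_nonneg_left h3 hk0
  have h5 : 2 * R < k * δ := by
    rwa [div_lt_iff₀ hδ0] at hk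
  nlinarith

end Helper31.Ewald
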